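import Pool.Agent.R51.Stair.Graph

set_option autoImplicit false

open Finset Filter Topology

namespace Pool.Agent.R51.Stair

theorem log_four_lt : Real.log 4 < 1.39 := by
  have h : (4 : ℝ) = 2 ^ 2 := by norm_num
  rw [h, Real.log_pow]
  have := Real.log_two_lt_d9
  push_cast
  linarith

/-- The quantitative upper bound. -/
theorem log_upper {n k t : ℕ} {G : SimpleGraph (Fin n)} (hk2 : 2 ≤ k) (hc : Curves G t)
    (hk : NoMono G k) :
    Real.log n ≤ Real.log (t + 1) + 10 * Real.sqrt (k * Real.log k) := by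
  have hkR : (2 : ℝ) ≤ k := by exact_mod_cast hk2
  have hlk : Real.log 2 ≤ Real.log k := Real.log_le_log (by norm_num) hkR
  have hl2 := Real.log_two_gt_d9
  have hlk0 : 0 < Real.log k := by linarith
  set P : ℝ := Real.sqrt (k * Real.log k) with hP
  have hPsq : P * P = k * Real.log k := Real.mul_self_sqrt (by positivity)
  have hP1 : 1 ≤ P := by
    rw [hP]
    apply Real.one_le_sqrt.2
    nlinarith
  have hlkP : Real.log k ≤ P := by
    have h1 : Real.log k ≤ k := (Real.log_le_sub_one_of_pos (by linarith)).trans (by linarith)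
    rw [hP]
    apply Real.le_sqrt_of_sq_le
    nlinarith
  set p : ℕ := ⌈P⌉₊ with hp
  have hp1 : 1 ≤ p := Nat.one_le_iff_ne_zero.2 (by
    rw [hp]
    have : 0 < ⌈P⌉₊ := Nat.ceil_pos.2 (by linarith)
    omega)
  have hpP : P ≤ p := Nat.le_ceil P
  have hpP' : (p : ℝ) < P + 1 := Nat.ceil_lt_add_one (by linarith)
  set s : ℕ := ⌈(k : ℝ) / p⌉₊ with hs
  have hp0 : (0 : ℝ) < p := by linarith
  have hsk : (k : ℝ) / p ≤ s := Nat.le_ceil _
  have hks : k ≤ p * s := by
    have : (k : ℝ) ≤ p * s := by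
      rw [div_le_iff₀ hp0] at hsk
      linarith
    exact_mod_cast this
  have hsle : s ≤ k := by
    rw [hs]
    apply Nat.ceil_le.2
    rw [div_le_iff₀ hp0]
    have : (1 : ℝ) ≤ p := by exact_mod_cast hp1
    nlinarith
  have hs' : (s : ℝ) ≤ k / P + 1 := by
    have h1 : (s : ℝ) < (k : ℝ) / p + 1 := Nat.ceil_lt_add_one (by positivity)
    have h2 : (k : ℝ) / p ≤ k / P := by
      apply div_le_div_of_nonneg_left (by linarith) (by linarith) hpP
    linarith
  rcases Nat.eq_zero_or_pos n with rfl | hn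
  · simp only [Nat.cast_zero, Real.log_zero]
    have : 0 ≤ Real.log ((t : ℝ) + 1) := Real.log_nonneg (by
      have : (0 : ℝ) ≤ t := Nat.cast_nonneg t
      linarith)
    linarith
  have hmain := main_graph hc hk hp1 hks
  have hmainR : (n : ℝ) ≤ (16 * (t + 1)) * 4 ^ p * (2 * k) ^ s := by
    have h1 : (s + k).choose s ≤ (2 * k) ^ s :=
      (Nat.choose_le_pow _ _).trans (Nat.pow_le_pow_left (by omega) _)
    have h2 : n ≤ (16 * (t + 1)) * 4 ^ p * (2 * k) ^ s := by
      refine hmain.le.trans ?_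
      exact Nat.mul_le_mul (Nat.mul_le_mul_right _ (by omega)) h1
    exact_mod_cast h2
  have hnR : (0 : ℝ) < n := by exact_mod_cast hn
  have htR : (0 : ℝ) ≤ t := Nat.cast_nonneg t
  have hlog : Real.log n ≤ Real.log 16 + Real.log (t + 1) + p * Real.log 4 +
      s * Real.log (2 * k) := by
    refine (Real.log_le_log hnR hmainR).trans (le_of_eq ?_)
    rw [Real.log_mul (by positivity) (by positivity), Real.log_mul (by positivity) (by positivity),
      Real.log_mul (by positivity) (by positivity), Real.log_pow, Real.log_pow]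
  have hl16 : Real.log 16 < 2.78 := by
    have h : (16 : ℝ) = 4 ^ 2 := by norm_num
    rw [h, Real.log_pow]
    have := log_four_lt
    push_cast
    linarith
  have hl2k : Real.log (2 * k) ≤ 2 * Real.log k := by
    rw [Real.log_mul (by norm_num) (by linarith)]
    linarith
  have hA : (p : ℝ) * Real.log 4 ≤ 2.78 * P := by
    have h4 := log_four_lt
    have h40 : 0 < Real.log 4 := Real.log_pos (by norm_num)
    have : (p : ℝ) * Real.log 4 ≤ (P + 1) * Real.log 4 :=
      mul_le_mul_of_nonneg_right hpP'.le h40.le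
    have h5 : (P + 1) * Real.log 4 ≤ (P + 1) * 1.39 := mul_le_mul_of_nonneg_left h4.le (by linarith)
    have h6 : (P + 1) * 1.39 ≤ 2.78 * P := by linarith
    linarith
  have hB : (s : ℝ) * Real.log (2 * k) ≤ 4 * P := by
    have h1 : (s : ℝ) * Real.log (2 * k) ≤ (k / P + 1) * (2 * Real.log k) := by
      apply mul_le_mul hs' hl2k
      · exact Real.log_nonneg (by linarith)
      · positivity
    have h2 : (k : ℝ) / P * Real.log k = P := by
      rw [div_mul_eq_mul_div, ← hPsq]
      field_simp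
    have h3 : (k / P + 1) * (2 * Real.log k) = 2 * (k / P * Real.log k) + 2 * Real.log k := by ring
    rw [h3, h2] at h1
    linarith
  linarith

/-- the Ramsey number of the colourings described by at most `t` monotone curves -/
noncomputable def curveRamsey (t k : ℕ) : ℕ :=
  sInf {n : ℕ | ∀ G : SimpleGraph (Fin n), Curves G t → ¬ NoMono G k}

/-- the diagonal Ramsey number -/
noncomputable def ramsey (k : ℕ) : ℕ := sInf {n : ℕ | ∀ G : SimpleGraph (Fin n), ¬ NoMono G k}

theorem noMono_iff {n k : ℕ} (G : SimpleGraph (Fin n)) : ¬ NoMono G k ↔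
    ((∃ s : Finset (Fin n), G.IsNClique k s) ∨ (∃ s : Finset (Fin n), Gᶜ.IsNClique k s)) := by
  unfold NoMono SimpleGraph.CliqueFree
  constructor
  · intro h
    by_contra hcon
    push Not at hcon
    exact h hcon
  · rintro (⟨s, hs⟩ | ⟨s, hs⟩) ⟨h1, h2⟩
    · exact h1 s hs
    · exact h2 s hs

theorem ramsey_eq (k : ℕ) : ramsey k = Pool.Agent.H818R2.Ram.R k k := by
  unfold ramsey Pool.Agent.H818R2.Ram.R Pool.Agent.H818R2.Ram.Arrows
  congr 1
  ext n
  simp only [Set.mem_setOf_eq]
  exact forall_congr' fun G => noMono_iff G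

theorem curveRamsey_le_ramsey (t k : ℕ) : curveRamsey t k ≤ ramsey k := by
  unfold curveRamsey ramsey
  apply Nat.sInf_le
  intro G _
  have h : (ramsey k) ∈ {n : ℕ | ∀ G : SimpleGraph (Fin n), ¬ NoMono G k} := by
    apply Nat.sInf_mem
    obtain ⟨n, hn⟩ := Pool.Agent.H818R2.Ram.arrows_exists k k
    exact ⟨n, fun G => (noMono_iff G).2 (hn G)⟩
  exact h G

theorem ramsey_pos {k : ℕ} (hk : 1 ≤ k) : 1 ≤ ramsey k := by
  rw [ramsey_eq]
  exact Pool.Agent.H818R2.Ram.R_pos hk hk

/-- no colouring on `curveRamsey - 1` vertices is missing: exact lower bound -/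
theorem le_curveRamsey (t k : ℕ) : min (t / 2 + 1) (ramsey k) ≤ curveRamsey t k := by
  by_contra hcon
  push Not at hcon
  rw [lt_min_iff] at hcon
  obtain ⟨h1, h2⟩ := hcon
  have hmem : curveRamsey t k ∈ {n : ℕ | ∀ G : SimpleGraph (Fin n), Curves G t → ¬ NoMono G k} := by
    apply Nat.sInf_mem
    obtain ⟨n, hn⟩ := Pool.Agent.H818R2.Ram.arrows_exists k k
    exact ⟨n, fun G _ => (noMono_iff G).2 (hn G)⟩
  rw [ramsey_eq] at h2
  obtain ⟨G, hr, hb⟩ := Pool.Agent.H818R2.Ram.exists_coloring h2
  refine hmem G (curves_all G (by omega)) ⟨?_, ?_⟩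
  · intro T hT
    exact hr ⟨T, subset_univ _, hT⟩
  · intro T hT
    exact hb ⟨T, subset_univ _, hT⟩

theorem curveRamsey_pos (t : ℕ) {k : ℕ} (hk : 1 ≤ k) : 1 ≤ curveRamsey t k := by
  refine le_trans ?_ (le_curveRamsey t k)
  exact le_min (by omega) (ramsey_pos hk)

theorem curveRamsey_le (t : ℕ) {k : ℕ} (hk : 2 ≤ k) :
    (curveRamsey t k : ℝ) ≤ 2 * ((t + 1) * Real.exp (10 * Real.sqrt (k * Real.log k))) := by
  set B : ℝ := (t + 1) * Real.exp (10 * Real.sqrt (k * Real.log k)) with hB
  have htR : (0 : ℝ) ≤ t := Nat.cast_nonneg t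
  have hB1 : 1 ≤ B := by
    rw [hB]
    have h1 : 1 ≤ Real.exp (10 * Real.sqrt (k * Real.log k)) := Real.one_le_exp (by positivity)
    nlinarith
  have hle : curveRamsey t k ≤ ⌊B⌋₊ + 1 := by
    unfold curveRamsey
    apply Nat.sInf_le
    intro G hc hG
    have h := log_upper hk hc hG
    have h3 : ((⌊B⌋₊ + 1 : ℕ) : ℝ) ≤ B := by
      have h4 : Real.log ((⌊B⌋₊ + 1 : ℕ) : ℝ) ≤ Real.log B := by
        rw [hB, Real.log_mul (by positivity) (by positivity), Real.log_exp]
        exact h
      exact (Real.log_le_log_iff (by positivity) (by linarith)).1 h4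
    have h5 := Nat.lt_floor_add_one B
    push_cast at h3
    linarith
  have h6 : (curveRamsey t k : ℝ) ≤ ((⌊B⌋₊ + 1 : ℕ) : ℝ) := by exact_mod_cast hle
  have h7 : (⌊B⌋₊ : ℝ) ≤ B := Nat.floor_le (by linarith)
  push_cast at h6
  linarith

theorem tendsto_err : Tendsto (fun k : ℕ => 10 * Real.sqrt (Real.log k / k)) atTop (𝓝 0) := by
  have h1 : Tendsto (fun x : ℝ => Real.log x / x) atTop (𝓝 0) :=
    Real.isLittleO_log_id_atTop.tendsto_div_nhds_zero
  have h2 : Tendsto (fun k : ℕ => Real.log k / k) atTop (𝓝 0) :=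
    h1.comp tendsto_natCast_atTop_atTop
  have h3 := (Real.continuous_sqrt.tendsto 0).comp h2
  rw [Real.sqrt_zero] at h3
  simpa using h3.const_mul 10

theorem err_eq {k : ℕ} (hk : 2 ≤ k) : 10 * Real.sqrt (k * Real.log k) =
    (10 * Real.sqrt (Real.log k / k)) * k := by
  have hk0 : (0 : ℝ) < k := by
    have : 0 < k := by omega
    exact_mod_cast this
  have h : (k : ℝ) * Real.log k = Real.log k / k * k ^ 2 := by
    field_simp
  rw [h, Real.sqrt_mul' _ (by positivity), Real.sqrt_sq hk0.le]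
  ring

/-- The growth rate. -/
theorem growth {ε : ℝ} (hε : 0 < ε) :
    Tendsto (fun k : ℕ => Real.log (curveRamsey ⌊Real.exp (ε * k)⌋₊ k) / k -
      min ε (Real.log (ramsey k) / k)) atTop (𝓝 0) := by
  have hl2 := Real.log_two_gt_d9
  have hup : Tendsto (fun k : ℕ => 2 / (k : ℝ) + 10 * Real.sqrt (Real.log k / k)) atTop (𝓝 0) := by
    simpa using (tendsto_const_div_atTop_nhds_zero_nat 2).add tendsto_err
  have hlo : Tendsto (fun k : ℕ => -(2 / (k : ℝ))) atTop (𝓝 0) := by
    simpa using (tendsto_const_div_atTop_nhds_zero_nat (2 : ℝ)).neg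
  refine tendsto_of_tendsto_of_tendsto_of_le_of_le' hlo hup ?_ ?_
  · filter_upwards [eventually_ge_atTop 2] with k hk
    have hk0 : (0 : ℝ) < k := by
      have : 0 < k := by omega
      exact_mod_cast this
    set t : ℕ := ⌊Real.exp (ε * k)⌋₊ with ht
    have hR1 : (1 : ℝ) ≤ ramsey k := by exact_mod_cast ramsey_pos (by omega : 1 ≤ k)
    have hc1 : (1 : ℝ) ≤ curveRamsey t k := by exact_mod_cast curveRamsey_pos t (by omega : 1 ≤ k)
    have h1 : min (Real.exp (ε * k) / 2) (ramsey k : ℝ) ≤ curveRamsey t k := by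
      have h2 : ((min (t / 2 + 1) (ramsey k) : ℕ) : ℝ) ≤ curveRamsey t k := by
        exact_mod_cast le_curveRamsey t k
      refine le_trans ?_ h2
      rw [Nat.cast_min]
      refine min_le_min ?_ le_rfl
      have h3 : Real.exp (ε * k) < t + 1 := Nat.lt_floor_add_one _
      have h4 : (t : ℝ) + 1 ≤ 2 * ((t / 2 + 1 : ℕ) : ℝ) := by
        have : t + 1 ≤ 2 * (t / 2 + 1) := by omega
        exact_mod_cast this
      linarith
    have h5 : min (ε * k) (Real.log (ramsey k)) - 1 ≤ Real.log (curveRamsey t k) := by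
      rcases le_total (Real.exp (ε * k) / 2) (ramsey k : ℝ) with h | h
      · rw [min_eq_left h] at h1
        have h6 : Real.log (Real.exp (ε * k) / 2) ≤ Real.log (curveRamsey t k) :=
          Real.log_le_log (by positivity) h1
        rw [Real.log_div (Real.exp_pos _).ne' (by norm_num), Real.log_exp] at h6
        have := min_le_left (ε * k) (Real.log (ramsey k))
        have := Real.log_two_lt_d9
        linarith
      · rw [min_eq_right h] at h1
        have h6 : Real.log (ramsey k) ≤ Real.log (curveRamsey t k) :=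
          Real.log_le_log (by linarith) h1
        have := min_le_right (ε * k) (Real.log (ramsey k))
        linarith
    have h7 : min ε (Real.log (ramsey k) / k) * k = min (ε * k) (Real.log (ramsey k)) := by
      rw [min_mul_of_nonneg _ _ hk0.le, div_mul_cancel₀ _ hk0.ne']
    have h8 : (min (ε * k) (Real.log (ramsey k)) - 1) / k ≤ Real.log (curveRamsey t k) / k :=
      div_le_div_of_nonneg_right h5 hk0.le
    have h9 : (min (ε * k) (Real.log (ramsey k)) - 1) / k =
        min ε (Real.log (ramsey k) / k) - 1 / k := by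
      rw [← h7]
      field_simp
    rw [h9] at h8
    have h10 : 1 / (k : ℝ) ≤ 2 / k := div_le_div_of_nonneg_right (by norm_num) hk0.le
    linarith
  · filter_upwards [eventually_ge_atTop 2] with k hk
    have hk0 : (0 : ℝ) < k := by
      have : 0 < k := by omega
      exact_mod_cast this
    set t : ℕ := ⌊Real.exp (ε * k)⌋₊ with ht
    have hR1 : (1 : ℝ) ≤ ramsey k := by exact_mod_cast ramsey_pos (by omega : 1 ≤ k)
    have hc1 : (1 : ℝ) ≤ curveRamsey t k := by exact_mod_cast curveRamsey_pos t (by omega : 1 ≤ k)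
    have ht1 : (t : ℝ) ≤ Real.exp (ε * k) := Nat.floor_le (Real.exp_pos _).le
    have hexp1 : 1 ≤ Real.exp (ε * k) := Real.one_le_exp (by positivity)
    have h1 : Real.log (curveRamsey t k) ≤ Real.log (ramsey k) :=
      Real.log_le_log (by linarith) (by exact_mod_cast curveRamsey_le_ramsey t k)
    have h2 : Real.log (curveRamsey t k) ≤ ε * k + 2 + 10 * Real.sqrt (k * Real.log k) := by
      have h3 : (curveRamsey t k : ℝ) ≤ 4 * Real.exp (ε * k) *
          Real.exp (10 * Real.sqrt (k * Real.log k)) := by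
        refine (curveRamsey_le t hk).trans ?_
        have : 2 * ((t : ℝ) + 1) ≤ 4 * Real.exp (ε * k) := by linarith
        calc 2 * (((t : ℝ) + 1) * Real.exp (10 * Real.sqrt (k * Real.log k)))
            = (2 * ((t : ℝ) + 1)) * Real.exp (10 * Real.sqrt (k * Real.log k)) := by ring
          _ ≤ _ := mul_le_mul_of_nonneg_right this (Real.exp_pos _).le
      have h4 := Real.log_le_log (by linarith) h3
      rw [Real.log_mul (by positivity) (by positivity), Real.log_mul (by norm_num) (by positivity),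
        Real.log_exp, Real.log_exp] at h4
      have := log_four_lt
      linarith
    have h3 : Real.log (curveRamsey t k) ≤ min (ε * k) (Real.log (ramsey k)) + 2 +
        10 * Real.sqrt (k * Real.log k) := by
      have hs0 : 0 ≤ Real.sqrt (k * Real.log k) := Real.sqrt_nonneg _
      rcases le_total (ε * k) (Real.log (ramsey k)) with h | h
      · rw [min_eq_left h]; exact h2
      · rw [min_eq_right h]; linarith
    have h7 : min ε (Real.log (ramsey k) / k) * k = min (ε * k) (Real.log (ramsey k)) := by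
      rw [min_mul_of_nonneg _ _ hk0.le, div_mul_cancel₀ _ hk0.ne']
    rw [← h7, err_eq hk] at h3
    have h8 := div_le_div_of_nonneg_right h3 hk0.le
    have h9 : (min ε (Real.log (ramsey k) / k) * k + 2 + 10 * Real.sqrt (Real.log k / k) * k) / k =
        min ε (Real.log (ramsey k) / k) + 2 / k + 10 * Real.sqrt (Real.log k / k) := by
      field_simp
    rw [h9] at h8
    linarith

theorem rate_ge {k : ℕ} (hk : 3 ≤ k) : Real.log 2 / 2 ≤ Real.log (ramsey k) / k := by
  have hk0 : (0 : ℝ) < k := by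
    have : 0 < k := by omega
    exact_mod_cast this
  have h := Pool.Agent.H818R2.Ram.erdos_lower hk
  rw [← ramsey_eq] at h
  have h1 : ((2 ^ k : ℕ) : ℝ) ≤ ((ramsey k ^ 2 : ℕ) : ℝ) := by exact_mod_cast h.le
  push_cast at h1
  have h2 := Real.log_le_log (by positivity) h1
  rw [Real.log_pow, Real.log_pow] at h2
  rw [div_le_div_iff₀ (by norm_num) hk0]
  push_cast at h2
  linarith

theorem growth_small {ε : ℝ} (hε : 0 < ε) (hε2 : ε ≤ Real.log 2 / 2) :
    Tendsto (fun k : ℕ => Real.log (curveRamsey ⌊Real.exp (ε * k)⌋₊ k) / k) atTop (𝓝 ε) := by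
  have h := growth hε
  have h2 : Tendsto (fun k : ℕ => (Real.log (curveRamsey ⌊Real.exp (ε * k)⌋₊ k) / k -
      min ε (Real.log (ramsey k) / k)) + ε) atTop (𝓝 (0 + ε)) := h.add_const ε
  rw [zero_add] at h2
  refine h2.congr' ?_
  filter_upwards [eventually_ge_atTop 3] with k hk
  rw [min_eq_left (hε2.trans (rate_ge hk))]
  ring

/-- Every colouring without monochromatic `K_k` on exponentially many vertices needs `n ^ (1 - δ)`
curves. -/
theorem many_curves {θ δ : ℝ} (hθ : 0 < θ) (hδ : 0 < δ) (hδ1 : δ < 1) :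
    ∃ K : ℕ, ∀ k : ℕ, K ≤ k → ∀ (n t : ℕ) (G : SimpleGraph (Fin n)), NoMono G k →
      Curves G t → Real.exp (θ * k) ≤ n → (n : ℝ) ^ (1 - δ) ≤ t := by
  have hup : Tendsto (fun k : ℕ => 1 / (k : ℝ) + 10 * Real.sqrt (Real.log k / k)) atTop (𝓝 0) := by
    simpa using (tendsto_const_div_atTop_nhds_zero_nat 1).add tendsto_err
  have hev := hup.eventually_lt_const (show (0 : ℝ) < δ * θ by positivity)
  obtain ⟨K, hK⟩ := Filter.eventually_atTop.1 hev
  refine ⟨max K 2, fun k hk n t G hG hc hn => ?_⟩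
  have hk2 : 2 ≤ k := (le_max_right _ _).trans hk
  have hk0 : (0 : ℝ) < k := by
    have : 0 < k := by omega
    exact_mod_cast this
  have h1 := hK k ((le_max_left _ _).trans hk)
  have h2 := log_upper hk2 hc hG
  rw [err_eq hk2] at h2
  have hnpos : (0 : ℝ) < n := lt_of_lt_of_le (Real.exp_pos _) hn
  have hlogn : θ * k ≤ Real.log n := by
    have := Real.log_le_log (Real.exp_pos _) hn
    rwa [Real.log_exp] at this
  have h3 : (1 / (k : ℝ) + 10 * Real.sqrt (Real.log k / k)) * k ≤ δ * θ * k :=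
    mul_le_mul_of_nonneg_right h1.le hk0.le
  have h4 : (1 / (k : ℝ) + 10 * Real.sqrt (Real.log k / k)) * k =
      1 + 10 * Real.sqrt (Real.log k / k) * k := by
    field_simp
  rw [h4] at h3
  have h5 : δ * θ * k ≤ δ * Real.log n := by nlinarith
  have h6 : (1 - δ) * Real.log n + 1 ≤ Real.log (t + 1) := by linarith
  have htR : (0 : ℝ) ≤ t := Nat.cast_nonneg t
  have hl2 := Real.log_two_lt_d9
  have h7 : Real.log ((n : ℝ) ^ (1 - δ) * 2) ≤ Real.log (t + 1) := by
    rw [Real.log_mul (by positivity) (by norm_num), Real.log_rpow hnpos]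
    linarith
  have h8 : (n : ℝ) ^ (1 - δ) * 2 ≤ t + 1 := (Real.log_le_log_iff (by positivity) (by linarith)).1 h7
  have h9 : 1 ≤ (n : ℝ) ^ (1 - δ) := by
    apply Real.one_le_rpow
    · have : (1 : ℝ) ≤ Real.exp (θ * k) := Real.one_le_exp (by positivity)
      linarith
    · linarith
  linarith

end Pool.Agent.R51.Stair
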