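import Mathlib

set_option autoImplicit false

open Finset

namespace Pool.Agent.R51.Stair

/-- all pairs of `S` have the colour `b` -/
def Homog (c : ℕ → ℕ → Bool) (b : Bool) (S : Finset ℕ) : Prop :=
  ∀ x ∈ S, ∀ y ∈ S, x < y → c x y = b

theorem Homog.mono {c : ℕ → ℕ → Bool} {b : Bool} {S T : Finset ℕ} (h : Homog c b S) (hT : T ⊆ S) :
    Homog c b T := fun x hx y hy hxy => h x (hT hx) y (hT hy) hxy

theorem homog_singleton (c : ℕ → ℕ → Bool) (b : Bool) (x : ℕ) : Homog c b {x} := by
  intro u hu v hv huv
  rw [mem_singleton] at hu hv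
  omega

/-- Ramsey's theorem with the binomial bound -/
theorem ramsey_thm (c : ℕ → ℕ → Bool) (b : Bool) : ∀ (m p q : ℕ), p + q = m → ∀ S : Finset ℕ,
    (p + q).choose p ≤ S.card →
    (∃ T ⊆ S, T.card = p + 1 ∧ Homog c b T) ∨ (∃ T ⊆ S, T.card = q + 1 ∧ Homog c (!b) T) := by
  intro m
  induction m with
  | zero =>
    intro p q h S hS
    obtain ⟨rfl, rfl⟩ : p = 0 ∧ q = 0 := by omega
    have : 0 < S.card := by simpa using hS
    obtain ⟨x, hx⟩ := card_pos.1 this
    exact Or.inl ⟨{x}, by simpa using hx, by simp, homog_singleton c b x⟩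
  | succ m ih =>
    intro p q h S hS
    have hpos : 0 < S.card := lt_of_lt_of_le (Nat.choose_pos (by omega)) hS
    obtain ⟨x0, hx0⟩ := card_pos.1 hpos
    rcases Nat.eq_zero_or_pos p with rfl | hp
    · exact Or.inl ⟨{x0}, by simpa using hx0, by simp, homog_singleton c b x0⟩
    rcases Nat.eq_zero_or_pos q with rfl | hq
    · exact Or.inr ⟨{x0}, by simpa using hx0, by simp, homog_singleton c _ x0⟩
    obtain ⟨p, rfl⟩ : ∃ p', p = p' + 1 := ⟨p - 1, by omega⟩
    obtain ⟨q, rfl⟩ : ∃ q', q = q' + 1 := ⟨q - 1, by omega⟩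
    have hne : S.Nonempty := ⟨x0, hx0⟩
    set x := S.min' hne with hxdef
    have hxS : x ∈ S := S.min'_mem hne
    set A := (S.erase x).filter (fun y => c x y = b) with hA
    set B := (S.erase x).filter (fun y => ¬ c x y = b) with hB
    have hAB : A.card + B.card + 1 = S.card := by
      rw [hA, hB, card_filter_add_card_filter_not, card_erase_add_one hxS]
    have hch : (p + 1 + (q + 1)).choose (p + 1) = (p + (q + 1)).choose p + (p + 1 + q).choose (p + 1) := by
      have : p + 1 + (q + 1) = (p + q + 1) + 1 := by ring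
      rw [this, Nat.choose_succ_succ']
      congr 2
      ring
    have hlt : ∀ y ∈ S.erase x, x < y := by
      intro y hy
      rw [mem_erase] at hy
      exact lt_of_le_of_ne (S.min'_le y hy.2) (Ne.symm hy.1)
    by_cases hc : (p + (q + 1)).choose p ≤ A.card
    · rcases ih p (q + 1) (by omega) A hc with ⟨T, hT, hT1, hT2⟩ | ⟨T, hT, hT1, hT2⟩
      · refine Or.inl ⟨insert x T, ?_, ?_, ?_⟩
        · intro y hy
          rw [mem_insert] at hy
          rcases hy with rfl | hy
          · exact hxS
          · exact mem_of_mem_erase (mem_of_mem_filter _ (hT hy))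
        · rw [card_insert_of_notMem, hT1]
          intro hx
          have := mem_of_mem_filter _ (hT hx)
          exact (notMem_erase x S) this
        · intro u hu v hv huv
          rw [mem_insert] at hu hv
          rcases hv with rfl | hv
          · rcases hu with rfl | hu
            · omega
            · have := hlt u (mem_of_mem_filter _ (hT hu))
              omega
          · rcases hu with rfl | hu
            · exact (mem_filter.1 (hT hv)).2
            · exact hT2 u hu v hv huv
      · exact Or.inr ⟨T, fun y hy => mem_of_mem_erase (mem_of_mem_filter _ (hT hy)), hT1, hT2⟩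
    · have hc' : (p + 1 + q).choose (p + 1) ≤ B.card := by omega
      rcases ih (p + 1) q (by omega) B hc' with ⟨T, hT, hT1, hT2⟩ | ⟨T, hT, hT1, hT2⟩
      · exact Or.inl ⟨T, fun y hy => mem_of_mem_erase (mem_of_mem_filter _ (hT hy)), hT1, hT2⟩
      · refine Or.inr ⟨insert x T, ?_, ?_, ?_⟩
        · intro y hy
          rw [mem_insert] at hy
          rcases hy with rfl | hy
          · exact hxS
          · exact mem_of_mem_erase (mem_of_mem_filter _ (hT hy))
        · rw [card_insert_of_notMem, hT1]
          intro hx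
          have := mem_of_mem_filter _ (hT hx)
          exact (notMem_erase x S) this
        · intro u hu v hv huv
          rw [mem_insert] at hu hv
          rcases hv with rfl | hv
          · rcases hu with rfl | hu
            · omega
            · have := hlt u (mem_of_mem_filter _ (hT hu))
              omega
          · rcases hu with rfl | hu
            · have := (mem_filter.1 (hT hv)).2
              cases b <;> simpa using this
            · exact hT2 u hu v hv huv

open Classical in
/-- a set of `r` elements without bad pairs, if all degrees are at most `D` -/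
theorem greedy (bad : ℕ → ℕ → Prop) (D : ℕ) : ∀ (r : ℕ) (A : Finset ℕ),
    (∀ i ∈ A, (A.filter (fun j => bad i j ∨ bad j i)).card ≤ D) → (D + 1) * r ≤ A.card →
    ∃ Q ⊆ A, Q.card = r ∧ ∀ i ∈ Q, ∀ j ∈ Q, i ≠ j → ¬ bad i j := by
  intro r
  induction r with
  | zero => intro A _ _; exact ⟨∅, by simp, by simp, by simp⟩
  | succ r ih =>
    intro A hA hr
    have hpos : 0 < A.card := by
      have : (D + 1) * (r + 1) = (D + 1) * r + D + 1 := by ring
      omega
    obtain ⟨i, hi⟩ := card_pos.1 hpos
    set N := A.filter (fun j => bad i j ∨ bad j i) with hN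
    have hNc : N.card ≤ D := hA i hi
    set A' := (A.erase i) \ N with hA'
    have hA'c : (D + 1) * r ≤ A'.card := by
      have h1 : (A.erase i).card ≤ A'.card + N.card := by
        have := le_card_sdiff N (A.erase i)
        rw [← hA'] at this
        omega
      have h2 := card_erase_of_mem hi
      have : (D + 1) * (r + 1) = (D + 1) * r + D + 1 := by ring
      omega
    have hsub : A' ⊆ A := (sdiff_subset).trans (erase_subset _ _)
    obtain ⟨Q, hQ, hQc, hQg⟩ := ih A' (by
      intro j hj
      refine le_trans (card_le_card ?_) (hA j (hsub hj))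
      exact filter_subset_filter _ hsub) hA'c
    have hiQ : i ∉ Q := by
      intro h
      have := hQ h
      rw [hA', mem_sdiff, mem_erase] at this
      exact this.1.1 rfl
    refine ⟨insert i Q, ?_, ?_, ?_⟩
    · intro y hy
      rw [mem_insert] at hy
      rcases hy with rfl | hy
      · exact hi
      · exact hsub (hQ hy)
    · rw [card_insert_of_notMem hiQ, hQc]
    · intro u hu v hv huv
      rw [mem_insert] at hu hv
      have key : ∀ w ∈ Q, ¬ bad i w ∧ ¬ bad w i := by
        intro w hw
        have := hQ hw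
        rw [hA', mem_sdiff, hN, mem_filter, mem_erase] at this
        have h3 := this.2
        push Not at h3
        exact h3 this.1.2
      rcases hu with rfl | hu
      · rcases hv with rfl | hv
        · exact absurd rfl huv
        · exact (key v hv).1
      · rcases hv with rfl | hv
        · exact (key u hu).2
        · exact hQg u hu v hv huv

/-- the block number `i` of length `l`, starting from `a` -/
def block (a l i : ℕ) : Finset ℕ := Ico (a + i * l) (a + (i + 1) * l)

/-- the colouring is not constant on the zone between the blocks `i` and `j` -/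
def Mixed (c : ℕ → ℕ → Bool) (a l i j : ℕ) : Prop :=
  ¬ ∃ b, ∀ x ∈ block a l i, ∀ y ∈ block a l j, c x y = b

open Classical in
/-- at most `z W` mixed zones in every division into `W` equal intervals -/
def ZoneLe (c : ℕ → ℕ → Bool) (n z : ℕ) : Prop :=
  ∀ a l W : ℕ, a + l * W ≤ n →
    ((range W ×ˢ range W).filter (fun p => p.1 < p.2 ∧ Mixed c a l p.1 p.2)).card ≤ z * W

theorem good_blocks {c : ℕ → ℕ → Bool} {n z a l W r : ℕ} (hz : ZoneLe c n z) (h : a + l * W ≤ n)
    (hW : (8 * z + 2) * r ≤ W) :
    ∃ Q ⊆ range W, Q.card = r ∧ ∀ i ∈ Q, ∀ j ∈ Q, i < j → ¬ Mixed c a l i j := by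
  classical
  set bad : ℕ → ℕ → Prop := fun i j => i < j ∧ Mixed c a l i j with hbad
  set P := (range W ×ˢ range W).filter (fun p => bad p.1 p.2) with hP
  have hPc : P.card ≤ z * W := hz a l W h
  set deg : ℕ → ℕ := fun i => ((range W).filter (fun j => bad i j ∨ bad j i)).card with hdeg
  have hsum : ∑ i ∈ range W, deg i ≤ 2 * (z * W) := by
    have h1 : ∀ i ∈ range W, deg i ≤ ((range W).filter (fun j => bad i j)).card +
        ((range W).filter (fun j => bad j i)).card := by
      intro i _
      rw [hdeg]
      simp only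
      rw [filter_or]
      exact card_union_le _ _
    refine (sum_le_sum h1).trans ?_
    rw [sum_add_distrib]
    have h2 : ∑ i ∈ range W, ((range W).filter (fun j => bad i j)).card = P.card := by
      rw [hP, card_filter, sum_product]
      refine sum_congr rfl fun i _ => ?_
      rw [card_filter]
    have h3 : ∑ i ∈ range W, ((range W).filter (fun j => bad j i)).card = P.card := by
      rw [hP, card_filter, sum_product_right]
      refine sum_congr rfl fun i _ => ?_
      rw [card_filter]
    rw [h2, h3]
    omega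
  set Low := (range W).filter (fun i => deg i ≤ 4 * z) with hLow
  set High := (range W).filter (fun i => ¬ deg i ≤ 4 * z) with hHigh
  have hLH : Low.card + High.card = W := by
    rw [hLow, hHigh, card_filter_add_card_filter_not, card_range]
  have hHc : (4 * z + 1) * High.card ≤ 2 * (z * W) := by
    refine le_trans ?_ hsum
    calc (4 * z + 1) * High.card = ∑ i ∈ High, (4 * z + 1) := by
          rw [sum_const, smul_eq_mul, mul_comm]
      _ ≤ ∑ i ∈ High, deg i := by
          refine sum_le_sum fun i hi => ?_
          rw [hHigh, mem_filter] at hi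
          omega
      _ ≤ ∑ i ∈ range W, deg i := sum_le_sum_of_subset (filter_subset _ _)
  have hH2 : 2 * High.card ≤ W := by
    by_contra hcon
    push Not at hcon
    have : (4 * z + 1) * W < (4 * z + 1) * (2 * High.card) :=
      Nat.mul_lt_mul_of_pos_left hcon (by omega)
    nlinarith
  have hLc : (4 * z + 1) * r ≤ Low.card := by
    have : (8 * z + 2) * r = 2 * ((4 * z + 1) * r) := by ring
    omega
  obtain ⟨Q, hQ, hQc, hQg⟩ := greedy bad (4 * z) r Low (by
    intro i hi
    rw [hLow, mem_filter] at hi
    refine le_trans (card_le_card ?_) hi.2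
    intro j hj
    simp only [mem_filter, hLow] at hj ⊢
    exact ⟨hj.1.1, hj.2⟩) hLc
  refine ⟨Q, hQ.trans (filter_subset _ _), hQc, fun i hi j hj hij hm => ?_⟩
  exact hQg i hi j hj hij.ne ⟨hij, hm⟩

theorem blocks_mono {c : ℕ → ℕ → Bool} {n z a l W p : ℕ} (hz : ZoneLe c n z) (h : a + l * W ≤ n)
    (hp : 1 ≤ p) (hW : (8 * z + 2) * 4 ^ p ≤ W) :
    ∃ b, ∃ Q ⊆ range W, Q.card = p ∧ ∀ i ∈ Q, ∀ j ∈ Q, i < j →
      ∀ x ∈ block a l i, ∀ y ∈ block a l j, c x y = b := by
  classical
  obtain ⟨Q, hQ, hQc, hQg⟩ := good_blocks hz h hW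
  set C : ℕ → ℕ → Bool := fun i j => decide (∀ x ∈ block a l i, ∀ y ∈ block a l j, c x y = true)
    with hC
  obtain ⟨q, rfl⟩ : ∃ q, p = q + 1 := ⟨p - 1, by omega⟩
  have hcard : (q + q).choose q ≤ Q.card := by
    rw [hQc]
    calc (q + q).choose q ≤ 2 ^ (q + q) := Nat.choose_le_two_pow _ _
      _ = 4 ^ q := by rw [← two_mul, pow_mul]; norm_num
      _ ≤ 4 ^ (q + 1) := Nat.pow_le_pow_right (by norm_num) (by omega)
  have hfalse : ∀ i ∈ Q, ∀ j ∈ Q, i < j → C i j = false →
      ∀ x ∈ block a l i, ∀ y ∈ block a l j, c x y = false := by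
    intro i hi j hj hij hCij x hx y hy
    have h1 := hQg i hi j hj hij
    unfold Mixed at h1
    push Not at h1
    obtain ⟨b, hb⟩ := h1
    cases b with
    | false => exact hb x hx y hy
    | true =>
      exfalso
      rw [hC] at hCij
      simp only [decide_eq_false_iff_not] at hCij
      exact hCij hb
  rcases ramsey_thm C true (q + q) q q rfl Q hcard with ⟨T, hT, hT1, hT2⟩ | ⟨T, hT, hT1, hT2⟩
  · refine ⟨true, T, hT.trans hQ, hT1, fun i hi j hj hij => ?_⟩
    have := hT2 i hi j hj hij
    rw [hC] at this
    simpa using this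
  · refine ⟨false, T, hT.trans hQ, hT1, fun i hi j hj hij => ?_⟩
    exact hfalse i (hT hi) j (hT hj) hij (hT2 i hi j hj hij)

theorem block_card (a l i : ℕ) : (block a l i).card = l := by
  unfold block
  rw [Nat.card_Ico]
  have : (i + 1) * l = i * l + l := by ring
  omega

theorem block_sub {a l i W n : ℕ} (hi : i < W) (h : a + l * W ≤ n) : block a l i ⊆ Ico a n := by
  intro x hx
  unfold block at hx
  rw [mem_Ico] at hx ⊢
  have h1 : (i + 1) * l ≤ W * l := Nat.mul_le_mul_right _ hi
  have h2 : W * l = l * W := mul_comm _ _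
  constructor
  · exact le_trans (Nat.le_add_right _ _) hx.1
  · omega

theorem block_lt {a l i j x y : ℕ} (hij : i < j) (hx : x ∈ block a l i) (hy : y ∈ block a l j) :
    x < y := by
  unfold block at hx hy
  rw [mem_Ico] at hx hy
  have : (i + 1) * l ≤ j * l := Nat.mul_le_mul_right _ hij
  omega

/-- union of homogeneous sets in blocks -/
theorem homog_biUnion {c : ℕ → ℕ → Bool} {a l : ℕ} {b : Bool} {Q : Finset ℕ}
    (hQ : ∀ i ∈ Q, ∀ j ∈ Q, i < j → ∀ x ∈ block a l i, ∀ y ∈ block a l j, c x y = b)
    (X : ℕ → Finset ℕ) (hX : ∀ i ∈ Q, X i ⊆ block a l i) (hXh : ∀ i ∈ Q, Homog c b (X i)) :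
    Homog c b (Q.biUnion X) ∧ (Q.biUnion X).card = ∑ i ∈ Q, (X i).card := by
  constructor
  · intro x hx y hy hxy
    rw [mem_biUnion] at hx hy
    obtain ⟨i, hi, hx⟩ := hx
    obtain ⟨j, hj, hy⟩ := hy
    rcases lt_trichotomy i j with hij | rfl | hij
    · exact hQ i hi j hj hij x (hX i hi hx) y (hX j hj hy)
    · exact hXh i hi x hx y hy hxy
    · exfalso
      have := block_lt hij (hX j hj hy) (hX i hi hx)
      omega
  · refine card_biUnion fun i hi j hj hij => ?_
    rw [Function.onFun, disjoint_left]
    intro x hx hy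
    rcases lt_or_gt_of_ne hij with h | h
    · exact lt_irrefl _ (block_lt h (hX i hi hx) (hX j hj hy))
    · exact lt_irrefl _ (block_lt h (hX j hj hy) (hX i hi hx))

/-- The main inequality. -/
theorem main_ineq {c : ℕ → ℕ → Bool} {n z k p s : ℕ} (hz : ZoneLe c n z) (hp : 1 ≤ p)
    (hk : ∀ S ⊆ range n, ∀ b, Homog c b S → S.card < k) (hs : k ≤ p * s) :
    n < (8 * z + 2) * 4 ^ p * (s + k).choose s := by
  set W := (8 * z + 2) * 4 ^ p with hW
  have hW0 : 0 < W := by positivity
  by_contra hcon
  push Not at hcon
  set l := n / W with hl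
  have hlR : (s + k).choose s ≤ l := by
    rw [hl, Nat.le_div_iff_mul_le hW0, mul_comm]
    exact hcon
  have hlW : 0 + l * W ≤ n := by
    rw [zero_add, hl]
    exact Nat.div_mul_le_self n W
  obtain ⟨b, Q, hQ, hQc, hQg⟩ := blocks_mono hz hlW hp (le_of_eq hW.symm)
  have hex : ∀ i ∈ Q, ∃ T ⊆ block 0 l i, T.card = s ∧ Homog c b T := by
    intro i hi
    have hiW : i < W := mem_range.1 (hQ hi)
    have hb : (s + k).choose s ≤ (block 0 l i).card := by rw [block_card]; exact hlR
    have hsub : block 0 l i ⊆ range n := by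
      intro x hx
      have := block_sub hiW hlW hx
      rw [mem_Ico] at this
      exact mem_range.2 this.2
    rcases ramsey_thm c b (s + k) s k rfl _ hb with ⟨T, hT, hT1, hT2⟩ | ⟨T, hT, hT1, hT2⟩
    · obtain ⟨T', hT', hTc⟩ := exists_subset_card_eq (show s ≤ T.card by omega)
      exact ⟨T', hT'.trans hT, hTc, hT2.mono hT'⟩
    · have := hk T (hT.trans hsub) _ hT2
      omega
  classical
  choose! X hX hXc hXh using hex
  obtain ⟨h1, h2⟩ := homog_biUnion hQg X hX hXh
  have h3 : (Q.biUnion X).card = p * s := by
    rw [h2, sum_congr rfl hXc, sum_const, hQc, smul_eq_mul]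
  have h4 : Q.biUnion X ⊆ range n := by
    intro x hx
    rw [mem_biUnion] at hx
    obtain ⟨i, hi, hx⟩ := hx
    have := block_sub (mem_range.1 (hQ hi)) hlW (hX i hi hx)
    rw [mem_Ico] at this
    exact mem_range.2 this.2
  have h5 := hk _ h4 b h1
  omega

/-- The recursion. -/
theorem recursion {c : ℕ → ℕ → Bool} {n z p : ℕ} (hz : ZoneLe c n z) (hp : 1 ≤ p) :
    ∀ (J a : ℕ), a + ((8 * z + 2) * 4 ^ p) ^ J ≤ n →
      ∃ X Y : Finset ℕ, X ⊆ Ico a (a + ((8 * z + 2) * 4 ^ p) ^ J) ∧
        Y ⊆ Ico a (a + ((8 * z + 2) * 4 ^ p) ^ J) ∧ Homog c true X ∧ Homog c false Y ∧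
        p ^ J ≤ X.card * Y.card := by
  set W := (8 * z + 2) * 4 ^ p with hW
  intro J
  induction J with
  | zero =>
    intro a ha
    exact ⟨{a}, {a}, by simp, by simp, homog_singleton c _ a, homog_singleton c _ a, by simp⟩
  | succ J ih =>
    intro a ha
    have hlW : a + W ^ J * W ≤ n := by rw [← pow_succ]; exact ha
    obtain ⟨b, Q, hQ, hQc, hQg⟩ := blocks_mono hz hlW hp (le_of_eq hW.symm)
    have hend : ∀ i ∈ Q, a + i * W ^ J + W ^ J ≤ a + W ^ (J + 1) := by
      intro i hi
      have hiW : i < W := mem_range.1 (hQ hi)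
      have h1 : (i + 1) * W ^ J ≤ W * W ^ J := Nat.mul_le_mul_right _ hiW
      have h2 : W * W ^ J = W ^ (J + 1) := by ring
      have h3 : (i + 1) * W ^ J = i * W ^ J + W ^ J := by ring
      omega
    have hex : ∀ i ∈ Q, ∃ X Y : Finset ℕ, X ⊆ block a (W ^ J) i ∧ Y ⊆ block a (W ^ J) i ∧
        Homog c true X ∧ Homog c false Y ∧ p ^ J ≤ X.card * Y.card := by
      intro i hi
      obtain ⟨X, Y, h1, h2, h3, h4, h5⟩ := ih (a + i * W ^ J) ((hend i hi).trans ha)
      have hb : block a (W ^ J) i = Ico (a + i * W ^ J) (a + i * W ^ J + W ^ J) := by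
        unfold block
        congr 1
        ring
      exact ⟨X, Y, by rw [hb]; exact h1, by rw [hb]; exact h2, h3, h4, h5⟩
    classical
    choose! X Y hX hY hXh hYh hXY using hex
    have hQne : Q.Nonempty := card_pos.1 (by omega)
    have hin : ∀ i ∈ Q, block a (W ^ J) i ⊆ Ico a (a + W ^ (J + 1)) := by
      intro i hi x hx
      unfold block at hx
      rw [mem_Ico] at hx ⊢
      have h1 := hend i hi
      have h3 : (i + 1) * W ^ J = i * W ^ J + W ^ J := by ring
      constructor
      · exact le_trans (Nat.le_add_right _ _) hx.1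
      · omega
    cases b with
    | true =>
      obtain ⟨i0, hi0, hmax⟩ := exists_max_image Q (fun i => (Y i).card) hQne
      obtain ⟨h1, h2⟩ := homog_biUnion hQg X hX hXh
      refine ⟨Q.biUnion X, Y i0, ?_, (hY i0 hi0).trans (hin i0 hi0), h1, hYh i0 hi0, ?_⟩
      · intro x hx
        rw [mem_biUnion] at hx
        obtain ⟨i, hi, hx⟩ := hx
        exact hin i hi (hX i hi hx)
      · rw [h2, sum_mul]
        calc p ^ (J + 1) = ∑ i ∈ Q, p ^ J := by rw [sum_const, hQc, smul_eq_mul]; ring
          _ ≤ ∑ i ∈ Q, (X i).card * (Y i0).card := by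
              refine sum_le_sum fun i hi => (hXY i hi).trans ?_
              exact Nat.mul_le_mul_left _ (hmax i hi)
    | false =>
      obtain ⟨i0, hi0, hmax⟩ := exists_max_image Q (fun i => (X i).card) hQne
      obtain ⟨h1, h2⟩ := homog_biUnion hQg Y hY hYh
      refine ⟨X i0, Q.biUnion Y, (hX i0 hi0).trans (hin i0 hi0), ?_, hXh i0 hi0, h1, ?_⟩
      · intro x hx
        rw [mem_biUnion] at hx
        obtain ⟨i, hi, hx⟩ := hx
        exact hin i hi (hY i hi hx)
      · rw [h2, mul_sum]
        calc p ^ (J + 1) = ∑ i ∈ Q, p ^ J := by rw [sum_const, hQc, smul_eq_mul]; ring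
          _ ≤ ∑ i ∈ Q, (X i0).card * (Y i).card := by
              refine sum_le_sum fun i hi => (hXY i hi).trans ?_
              exact Nat.mul_le_mul_right _ (hmax i hi)

theorem rec_bound {c : ℕ → ℕ → Bool} {n z k p J : ℕ} (hz : ZoneLe c n z) (hp : 1 ≤ p)
    (hk : ∀ S ⊆ range n, ∀ b, Homog c b S → S.card < k)
    (hn : ((8 * z + 2) * 4 ^ p) ^ J ≤ n) : p ^ J ≤ (k - 1) ^ 2 := by
  obtain ⟨X, Y, h1, h2, h3, h4, h5⟩ := recursion hz hp J 0 (by simpa using hn)
  have hr : Ico 0 (0 + ((8 * z + 2) * 4 ^ p) ^ J) ⊆ range n := by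
    intro x hx
    rw [mem_Ico] at hx
    exact mem_range.2 (by omega)
  have h6 := hk X (h1.trans hr) _ h3
  have h7 := hk Y (h2.trans hr) _ h4
  calc p ^ J ≤ X.card * Y.card := h5
    _ ≤ (k - 1) * (k - 1) := Nat.mul_le_mul (by omega) (by omega)
    _ = (k - 1) ^ 2 := by ring

/-- Monotone curves meet few zones. -/
theorem zone_of_curves {c : ℕ → ℕ → Bool} {n t : ℕ} {ι : Type} (F : Finset ι) (hF : F.card ≤ t)
    (φ : ι → ℕ → ℕ)
    (hφ : ∀ i ∈ F, (∀ x y, x ≤ y → y < n → φ i x ≤ φ i y) ∨
      (∀ x y, x ≤ y → y < n → φ i y ≤ φ i x))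
    (hc : ∀ x y x' y' : ℕ, x < y → y < n → x' < y' → y' < n →
      (∀ i ∈ F, y < φ i x ↔ y' < φ i x') → c x y = c x' y') : ZoneLe c n (2 * t) := by
  classical
  intro a l W h
  set cross : ι → ℕ × ℕ → Prop := fun i q =>
    (∃ x ∈ block a l q.1, ∃ y ∈ block a l q.2, y < φ i x) ∧
      (∃ x ∈ block a l q.1, ∃ y ∈ block a l q.2, φ i x ≤ y) with hcross
  have hsub : (range W ×ˢ range W).filter (fun q => q.1 < q.2 ∧ Mixed c a l q.1 q.2) ⊆
      F.biUnion (fun i => (range W ×ˢ range W).filter (fun q => cross i q)) := by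
    intro q hq
    rw [mem_filter, mem_product, mem_range, mem_range] at hq
    obtain ⟨⟨hq1, hq2⟩, hlt, hm⟩ := hq
    rw [mem_biUnion]
    by_contra hcon
    push Not at hcon
    apply hm
    have hno : ∀ i ∈ F, ¬ cross i q := by
      intro i hiF hi
      exact hcon i hiF (by rw [mem_filter, mem_product, mem_range, mem_range]; exact ⟨⟨hq1, hq2⟩, hi⟩)
    rcases Nat.eq_zero_or_pos l with rfl | hl
    · refine ⟨true, fun x hx => ?_⟩
      unfold block at hx
      simp at hx
    · have hx0 : a + q.1 * l ∈ block a l q.1 := by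
        unfold block
        rw [mem_Ico]
        constructor
        · exact le_rfl
        · have : (q.1 + 1) * l = q.1 * l + l := by ring
          omega
      have hy0 : a + q.2 * l ∈ block a l q.2 := by
        unfold block
        rw [mem_Ico]
        constructor
        · exact le_rfl
        · have : (q.2 + 1) * l = q.2 * l + l := by ring
          omega
      refine ⟨c (a + q.1 * l) (a + q.2 * l), fun x hx y hy => ?_⟩
      have hyn : y < n := (mem_Ico.1 (block_sub hq2 h hy)).2
      have hy0n : a + q.2 * l < n := (mem_Ico.1 (block_sub hq2 h hy0)).2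
      refine hc x y _ _ (block_lt hlt hx hy) hyn (block_lt hlt hx0 hy0) hy0n ?_
      intro i hiF
      have hni := hno i hiF
      rw [hcross] at hni
      have hni' : (∀ x ∈ block a l q.1, ∀ y ∈ block a l q.2, ¬ y < φ i x) ∨
          (∀ x ∈ block a l q.1, ∀ y ∈ block a l q.2, ¬ φ i x ≤ y) := by
        by_contra hcon
        rw [not_or] at hcon
        obtain ⟨h1, h2⟩ := hcon
        push Not at h1 h2
        exact hni ⟨h1, h2⟩
      rcases hni' with hni' | hni'
      · exact ⟨fun hh => absurd hh (hni' x hx y hy), fun hh => absurd hh (hni' _ hx0 _ hy0)⟩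
      · exact ⟨fun _ => not_le.1 (hni' _ hx0 _ hy0), fun _ => not_le.1 (hni' x hx y hy)⟩
  have hone : ∀ i ∈ F, ((range W ×ˢ range W).filter (fun q => cross i q)).card ≤ 2 * W := by
    intro i hiF
    rcases hφ i hiF with hmono | hanti
    · have hinj : Set.InjOn (fun q : ℕ × ℕ => q.1 + q.2)
          (((range W ×ˢ range W).filter (fun q => cross i q) : Finset (ℕ × ℕ)) : Set (ℕ × ℕ)) := by
        have key : ∀ q ∈ (range W ×ˢ range W).filter (fun q => cross i q),
            ∀ q' ∈ (range W ×ˢ range W).filter (fun q => cross i q), q.1 < q'.1 → q.2 ≤ q'.2 := by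
          intro q hq q' hq' hlt
          rw [mem_filter, mem_product, mem_range, mem_range] at hq hq'
          obtain ⟨⟨x, hx, y, hy, hxy⟩, -⟩ := hq.2
          obtain ⟨-, ⟨x', hx', y', hy', hxy'⟩⟩ := hq'.2
          have h1 : x < x' := block_lt hlt hx hx'
          have hx'n : x' < n := (mem_Ico.1 (block_sub hq'.1.1 h hx')).2
          have h2 := hmono x x' h1.le hx'n
          have h3 : y < y' := by omega
          by_contra hcon
          push Not at hcon
          have := block_lt hcon hy' hy
          omega
        intro q hq q' hq' he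
        rw [mem_coe] at hq hq'
        simp only at he
        rcases lt_trichotomy q.1 q'.1 with hlt | heq | hgt
        · have := key q hq q' hq' hlt
          omega
        · exact Prod.ext heq (by omega)
        · have := key q' hq' q hq hgt
          omega
      calc ((range W ×ˢ range W).filter (fun q => cross i q)).card
          = (((range W ×ˢ range W).filter (fun q => cross i q)).image (fun q => q.1 + q.2)).card :=
            (card_image_of_injOn hinj).symm
        _ ≤ (range (2 * W)).card := by
            refine card_le_card fun v hv => ?_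
            rw [mem_image] at hv
            obtain ⟨q, hq, rfl⟩ := hv
            rw [mem_filter, mem_product, mem_range, mem_range] at hq
            rw [mem_range]
            omega
        _ = 2 * W := card_range _
    · have hinj : Set.InjOn (fun q : ℕ × ℕ => q.1 + (W - q.2))
          (((range W ×ˢ range W).filter (fun q => cross i q) : Finset (ℕ × ℕ)) : Set (ℕ × ℕ)) := by
        have key : ∀ q ∈ (range W ×ˢ range W).filter (fun q => cross i q),
            ∀ q' ∈ (range W ×ˢ range W).filter (fun q => cross i q), q.1 < q'.1 → q'.2 ≤ q.2 := by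
          intro q hq q' hq' hlt
          rw [mem_filter, mem_product, mem_range, mem_range] at hq hq'
          obtain ⟨-, ⟨x, hx, y, hy, hxy⟩⟩ := hq.2
          obtain ⟨⟨x', hx', y', hy', hxy'⟩, -⟩ := hq'.2
          have h1 : x < x' := block_lt hlt hx hx'
          have hx'n : x' < n := (mem_Ico.1 (block_sub hq'.1.1 h hx')).2
          have h2 := hanti x x' h1.le hx'n
          have h3 : y' < y := by omega
          by_contra hcon
          push Not at hcon
          have := block_lt hcon hy hy'
          omega
        intro q hq q' hq' he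
        rw [mem_coe] at hq hq'
        have hqW := (mem_filter.1 hq).1
        have hqW' := (mem_filter.1 hq').1
        rw [mem_product, mem_range, mem_range] at hqW hqW'
        simp only at he
        rcases lt_trichotomy q.1 q'.1 with hlt | heq | hgt
        · have := key q hq q' hq' hlt
          omega
        · exact Prod.ext heq (by omega)
        · have := key q' hq' q hq hgt
          omega
      calc ((range W ×ˢ range W).filter (fun q => cross i q)).card
          = (((range W ×ˢ range W).filter (fun q => cross i q)).image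
              (fun q => q.1 + (W - q.2))).card := (card_image_of_injOn hinj).symm
        _ ≤ (range (2 * W)).card := by
            refine card_le_card fun v hv => ?_
            rw [mem_image] at hv
            obtain ⟨q, hq, rfl⟩ := hv
            rw [mem_filter, mem_product, mem_range, mem_range] at hq
            rw [mem_range]
            omega
        _ = 2 * W := card_range _
  calc ((range W ×ˢ range W).filter (fun q => q.1 < q.2 ∧ Mixed c a l q.1 q.2)).card
      ≤ (F.biUnion
          (fun i => (range W ×ˢ range W).filter (fun q => cross i q))).card := card_le_card hsub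
    _ ≤ ∑ i ∈ F, ((range W ×ˢ range W).filter (fun q => cross i q)).card := card_biUnion_le
    _ ≤ ∑ _i ∈ F, 2 * W := sum_le_sum fun i hi => hone i hi
    _ = F.card * (2 * W) := by rw [sum_const, smul_eq_mul]
    _ ≤ t * (2 * W) := Nat.mul_le_mul_right _ hF
    _ = 2 * t * W := by ring

end Pool.Agent.R51.Stair
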