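import Pool.Agent.R51.Stair.Basic
import Pool.Agent.H818R2.Ram.Erdos

set_option autoImplicit false

open Finset

namespace Pool.Agent.R51.Stair

/-- The colouring with colour classes `G` and `Gᶜ` has no monochromatic `K_k`. -/
def NoMono {n : ℕ} (G : SimpleGraph (Fin n)) (k : ℕ) : Prop :=
  G.CliqueFree k ∧ Gᶜ.CliqueFree k

/-- The colour matrix of `G` is described by at most `t` monotone curves. -/
def Curves {n : ℕ} (G : SimpleGraph (Fin n)) (t : ℕ) : Prop :=
  ∃ F : Finset (Fin n → ℕ), F.card ≤ t ∧ (∀ φ ∈ F, Monotone φ ∨ Antitone φ) ∧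
    ∀ x y x' y' : Fin n, x < y → x' < y' →
      (∀ φ ∈ F, (y : ℕ) < φ x ↔ (y' : ℕ) < φ x') → (G.Adj x y ↔ G.Adj x' y')

open Classical in
/-- the colours as a function on pairs of natural numbers -/
noncomputable def col {n : ℕ} (G : SimpleGraph (Fin n)) : ℕ → ℕ → Bool :=
  fun x y => decide (∃ (hx : x < n) (hy : y < n), G.Adj ⟨x, hx⟩ ⟨y, hy⟩)

theorem col_iff {n : ℕ} (G : SimpleGraph (Fin n)) {x y : ℕ} (hx : x < n) (hy : y < n) :
    col G x y = true ↔ G.Adj ⟨x, hx⟩ ⟨y, hy⟩ := by
  simp only [col, decide_eq_true_iff]
  exact ⟨fun ⟨_, _, h⟩ => h, fun h => ⟨hx, hy, h⟩⟩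

theorem zone_of_Curves {n t : ℕ} {G : SimpleGraph (Fin n)} (h : Curves G t) :
    ZoneLe (col G) n (2 * t) := by
  classical
  obtain ⟨F, hF, hm, hc⟩ := h
  refine zone_of_curves F hF (fun f x => if h : x < n then f ⟨x, h⟩ else 0) ?_ ?_
  · intro f hf
    rcases hm f hf with h1 | h1
    · left
      intro x y hxy hy
      have hx : x < n := lt_of_le_of_lt hxy hy
      simp only [hx, hy, dif_pos]
      exact h1 hxy
    · right
      intro x y hxy hy
      have hx : x < n := lt_of_le_of_lt hxy hy
      simp only [hx, hy, dif_pos]
      exact h1 hxy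
  · intro x y x' y' hxy hy hxy' hy' hs
    have hx : x < n := hxy.trans hy
    have hx' : x' < n := hxy'.trans hy'
    have h1 := hc ⟨x, hx⟩ ⟨y, hy⟩ ⟨x', hx'⟩ ⟨y', hy'⟩ hxy hxy' (by
      intro f hf
      have := hs f hf
      simp only [hx, hx', dif_pos] at this
      exact this)
    rw [Bool.eq_iff_iff, col_iff G hx hy, col_iff G hx' hy']
    exact h1

theorem homog_lt {n k : ℕ} {G : SimpleGraph (Fin n)} (h : NoMono G k) :
    ∀ S ⊆ range n, ∀ b, Homog (col G) b S → S.card < k := by
  classical
  intro S hS b hb
  by_contra hcon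
  push Not at hcon
  set T : Finset (Fin n) := univ.filter (fun x => (x : ℕ) ∈ S) with hT
  have hTc : T.card = S.card := by
    have : T.image (fun x : Fin n => (x : ℕ)) = S := by
      ext x
      rw [mem_image]
      constructor
      · rintro ⟨y, hy, rfl⟩
        rw [hT, mem_filter] at hy
        exact hy.2
      · intro hx
        have := mem_range.1 (hS hx)
        exact ⟨⟨x, this⟩, by rw [hT, mem_filter]; exact ⟨mem_univ _, hx⟩, rfl⟩
    rw [← this, card_image_of_injective _ Fin.val_injective]
  obtain ⟨T', hT', hc⟩ := exists_subset_card_eq (show k ≤ T.card by omega)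
  have key : ∀ x ∈ T', ∀ y ∈ T', x < y → col G x y = b := by
    intro x hx y hy hxy
    have h1 := hT' hx
    have h2 := hT' hy
    rw [hT, mem_filter] at h1 h2
    exact hb _ h1.2 _ h2.2 hxy
  have key2 : ∀ x ∈ T', ∀ y ∈ T', x < y → (G.Adj x y ↔ b = true) := by
    intro x hx y hy hxy
    rw [← key x hx y hy hxy, col_iff G x.2 y.2]
  cases b with
  | true =>
    refine h.1 T' ⟨?_, hc⟩
    intro x hx y hy hxy
    rcases lt_or_gt_of_ne hxy with h1 | h1
    · exact (key2 x hx y hy h1).2 rfl
    · exact ((key2 y hy x hx h1).2 rfl).symm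
  | false =>
    refine h.2 T' ⟨?_, hc⟩
    intro x hx y hy hxy
    rw [SimpleGraph.compl_adj]
    refine ⟨hxy, ?_⟩
    rcases lt_or_gt_of_ne hxy with h1 | h1
    · intro hadj
      exact Bool.false_ne_true ((key2 x hx y hy h1).1 hadj)
    · intro hadj
      exact Bool.false_ne_true ((key2 y hy x hx h1).1 hadj.symm)

/-- from a colouring of pairs of natural numbers to a graph -/
def gr (n : ℕ) (c : ℕ → ℕ → Bool) : SimpleGraph (Fin n) where
  Adj x y := (x < y ∧ c x y = true) ∨ (y < x ∧ c y x = true)
  symm := ⟨fun _ _ h => h.symm⟩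
  loopless := ⟨fun _ h => by
    rcases h with h | h
    · exact lt_irrefl _ h.1
    · exact lt_irrefl _ h.1⟩

theorem gr_adj {n : ℕ} {c : ℕ → ℕ → Bool} {x y : Fin n} (h : x < y) :
    (gr n c).Adj x y ↔ c x y = true := by
  constructor
  · rintro (h1 | h1)
    · exact h1.2
    · exact absurd h1.1 (not_lt.2 h.le)
  · exact fun h1 => Or.inl ⟨h, h1⟩

theorem noMono_gr {n k : ℕ} {c : ℕ → ℕ → Bool}
    (h : ∀ S ⊆ range n, ∀ b, Homog c b S → S.card < k) : NoMono (gr n c) k := by
  classical
  have key : ∀ (b : Bool) (T : Finset (Fin n)), (∀ x ∈ T, ∀ y ∈ T, x < y → c x y = b) →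
      T.card < k := by
    intro b T hT
    have h1 := h (T.image (fun x : Fin n => (x : ℕ))) (by
      intro x hx
      rw [mem_image] at hx
      obtain ⟨y, _, rfl⟩ := hx
      exact mem_range.2 y.2) b (by
      intro x hx y hy hxy
      rw [mem_image] at hx hy
      obtain ⟨x, hx, rfl⟩ := hx
      obtain ⟨y, hy, rfl⟩ := hy
      exact hT x hx y hy hxy)
    rwa [card_image_of_injective _ Fin.val_injective] at h1
  constructor
  · intro T hT
    have := key true T (fun x hx y hy hxy => (gr_adj hxy).1 (hT.1 hx hy hxy.ne))
    rw [hT.2] at this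
    exact lt_irrefl _ this
  · intro T hT
    have := key false T (fun x hx y hy hxy => by
      have h1 := hT.1 hx hy hxy.ne
      rw [SimpleGraph.compl_adj, gr_adj hxy] at h1
      exact Bool.not_eq_true _ ▸ h1.2)
    rw [hT.2] at this
    exact lt_irrefl _ this

/-- The main inequality for graphs. -/
theorem main_graph {n k t p s : ℕ} {G : SimpleGraph (Fin n)} (hc : Curves G t) (hk : NoMono G k)
    (hp : 1 ≤ p) (hs : k ≤ p * s) : n < (16 * t + 2) * 4 ^ p * (s + k).choose s := by
  have := main_ineq (zone_of_Curves hc) hp (homog_lt hk) hs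
  have h2 : 8 * (2 * t) + 2 = 16 * t + 2 := by ring
  rwa [h2] at this

theorem rec_graph {n k t p J : ℕ} {G : SimpleGraph (Fin n)} (hc : Curves G t) (hk : NoMono G k)
    (hp : 1 ≤ p) (hJ : ((16 * t + 2) * 4 ^ p) ^ J ≤ n) : p ^ J ≤ (k - 1) ^ 2 := by
  refine rec_bound (zone_of_Curves hc) hp (homog_lt hk) ?_
  have h2 : 8 * (2 * t) + 2 = 16 * t + 2 := by ring
  rwa [h2]

/-- every colouring is described by `2 n` curves -/
theorem curves_all {n t : ℕ} (G : SimpleGraph (Fin n)) (h : 2 * n ≤ t) : Curves G t := by
  classical
  refine ⟨(univ.image (fun a : Fin n => (fun _ : Fin n => (a : ℕ)))) ∪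
    (univ.image (fun a : Fin n => (fun x : Fin n => if x < a then 0 else n))), ?_, ?_, ?_⟩
  · refine (card_union_le _ _).trans ?_
    have h1 := card_image_le (s := (univ : Finset (Fin n)))
      (f := fun a : Fin n => (fun _ : Fin n => (a : ℕ)))
    have h2 := card_image_le (s := (univ : Finset (Fin n)))
      (f := fun a : Fin n => (fun x : Fin n => if x < a then 0 else n))
    rw [card_univ, Fintype.card_fin] at h1 h2
    omega
  · intro φ hφ
    left
    rw [mem_union, mem_image, mem_image] at hφ
    rcases hφ with ⟨a, -, rfl⟩ | ⟨a, -, rfl⟩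
    · exact monotone_const
    · intro x y hxy
      simp only
      split_ifs with h1 h2
      · exact le_rfl
      · exact Nat.zero_le _
      · exact absurd (lt_of_le_of_lt hxy ‹_›) h1
      · exact le_rfl
  · intro x y x' y' hxy hxy' hs
    have hy : y = y' := by
      rcases lt_trichotomy y y' with h1 | h1 | h1
      · have := (hs (fun _ => (y' : ℕ)) (mem_union_left _ (mem_image.2 ⟨y', mem_univ _, rfl⟩))).1 h1
        exact absurd this (lt_irrefl _)
      · exact h1
      · have := (hs (fun _ => (y : ℕ)) (mem_union_left _ (mem_image.2 ⟨y, mem_univ _, rfl⟩))).2 h1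
        exact absurd this (lt_irrefl _)
    have hx : x = x' := by
      rcases lt_trichotomy x x' with h1 | h1 | h1
      · have := (hs (fun z => if z < x' then 0 else n)
          (mem_union_right _ (mem_image.2 ⟨x', mem_univ _, rfl⟩))).2 (by
            simp only [lt_irrefl, if_false]
            exact y'.2)
        simp only [h1, if_true] at this
        omega
      · exact h1
      · have := (hs (fun z => if z < x then 0 else n)
          (mem_union_right _ (mem_image.2 ⟨x, mem_univ _, rfl⟩))).1 (by
            simp only [lt_irrefl, if_false]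
            exact y.2)
        simp only [h1, if_true] at this
        omega
    rw [hx, hy]

/-- lexicographic powers of a colouring of `0, …, m - 1` -/
def lexcol (base : ℕ → ℕ → Bool) (m : ℕ) : ℕ → ℕ → ℕ → Bool
  | 0 => fun _ _ => true
  | L + 1 => fun x y => if x / m ^ L = y / m ^ L then lexcol base m L (x % m ^ L) (y % m ^ L)
      else base (x / m ^ L) (y / m ^ L)

theorem lex_homog {base : ℕ → ℕ → Bool} {m K : ℕ} (hm : 1 ≤ m)
    (hb : ∀ S ⊆ range m, ∀ b, Homog base b S → S.card ≤ K) :
    ∀ L, ∀ S ⊆ range (m ^ L), ∀ b, Homog (lexcol base m L) b S → S.card ≤ K ^ L := by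
  classical
  intro L
  induction L with
  | zero =>
    intro S hS b _
    have := card_le_card hS
    simpa using this
  | succ L ih =>
    intro S hS b hSb
    have hM : 0 < m ^ L := Nat.pow_pos hm
    have h1 : S.card ≤ K ^ L * (S.image (fun x => x / m ^ L)).card := by
      refine card_le_mul_card_image S (K ^ L) ?_
      intro d _
      set Sd := S.filter (fun x => x / m ^ L = d) with hSd
      have hinj : Set.InjOn (fun x => x % m ^ L) (Sd : Set ℕ) := by
        intro x hx y hy hxy
        rw [mem_coe, hSd, mem_filter] at hx hy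
        simp only at hxy
        have e1 := Nat.div_add_mod x (m ^ L)
        have e2 := Nat.div_add_mod y (m ^ L)
        rw [hx.2, hxy] at e1
        rw [hy.2] at e2
        omega
      rw [← card_image_of_injOn hinj]
      refine ih _ ?_ b ?_
      · intro x hx
        rw [mem_image] at hx
        obtain ⟨y, _, rfl⟩ := hx
        exact mem_range.2 (Nat.mod_lt _ hM)
      · intro x hx y hy hxy
        rw [mem_image] at hx hy
        obtain ⟨x, hx, rfl⟩ := hx
        obtain ⟨y, hy, rfl⟩ := hy
        rw [hSd, mem_filter] at hx hy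
        have hxy' : x < y := by
          have e1 := Nat.div_add_mod x (m ^ L)
          have e2 := Nat.div_add_mod y (m ^ L)
          rw [hx.2] at e1
          rw [hy.2] at e2
          omega
        have := hSb x hx.1 y hy.1 hxy'
        unfold lexcol at this
        rw [if_pos (hx.2.trans hy.2.symm)] at this
        exact this
    have h2 : (S.image (fun x => x / m ^ L)).card ≤ K := by
      refine hb _ ?_ b ?_
      · intro x hx
        rw [mem_image] at hx
        obtain ⟨y, hy, rfl⟩ := hx
        have := mem_range.1 (hS hy)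
        rw [mem_range, Nat.div_lt_iff_lt_mul hM]
        calc y < m ^ (L + 1) := this
          _ = m * m ^ L := by ring
      · intro x hx y hy hxy
        rw [mem_image] at hx hy
        obtain ⟨x, hx, rfl⟩ := hx
        obtain ⟨y, hy, rfl⟩ := hy
        have hxy' : x < y := by
          by_contra hcon
          push Not at hcon
          exact absurd (Nat.div_le_div_right (c := m ^ L) hcon) (not_le.2 hxy)
        have := hSb x hx y hy hxy'
        unfold lexcol at this
        rw [if_neg hxy.ne] at this
        exact this
    calc S.card ≤ K ^ L * (S.image (fun x => x / m ^ L)).card := h1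
      _ ≤ K ^ L * K := Nat.mul_le_mul_left _ h2
      _ = K ^ (L + 1) := by ring

theorem lex_curves (base : ℕ → ℕ → Bool) {m : ℕ} (hm : 1 ≤ m) : ∀ L, ∃ F : Finset (ℕ → ℕ),
    F.card ≤ 2 * m * L ∧ (∀ φ ∈ F, Monotone φ) ∧ ∀ x y x' y' : ℕ, x < y → y < m ^ L →
      x' < y' → y' < m ^ L → (∀ φ ∈ F, y < φ x ↔ y' < φ x') →
      lexcol base m L x y = lexcol base m L x' y' := by
  classical
  intro L
  induction L with
  | zero => exact ⟨∅, by simp, by simp, fun _ _ _ _ _ _ _ _ _ => rfl⟩
  | succ L ih =>
    obtain ⟨F, hF1, hF2, hF3⟩ := ih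
    set M := m ^ L with hMdef
    have hM : 0 < M := Nat.pow_pos hm
    set lift : (ℕ → ℕ) → ℕ → ℕ := fun φ x => (x / M) * M + min (φ (x % M)) M with hlift
    set A := F.image lift with hA
    set B := (range m).image (fun a => (fun _ : ℕ => a * M)) with hB
    set C := (range m).image (fun a => (fun x : ℕ => if x < a * M then 0 else m * M)) with hC
    refine ⟨A ∪ (B ∪ C), ?_, ?_, ?_⟩
    · have h1 : A.card ≤ F.card := card_image_le
      have h2 : B.card ≤ m := by
        have := card_image_le (s := range m) (f := fun a => (fun _ : ℕ => a * M))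
        rwa [card_range] at this
      have h3 : C.card ≤ m := by
        have := card_image_le (s := range m) (f := fun a => (fun x : ℕ => if x < a * M then 0 else m * M))
        rwa [card_range] at this
      have h4 := card_union_le A (B ∪ C)
      have h5 := card_union_le B C
      have h6 : 2 * m * (L + 1) = 2 * m * L + 2 * m := by ring
      omega
    · intro φ hφ
      rw [mem_union, mem_union] at hφ
      rcases hφ with hφ | hφ | hφ
      · rw [hA, mem_image] at hφ
        obtain ⟨f, hf, rfl⟩ := hφ
        intro x y hxy
        simp only [hlift]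
        have hd := Nat.div_le_div_right (c := M) hxy
        rcases hd.lt_or_eq with h1 | h1
        · have h2 : (x / M + 1) * M ≤ (y / M) * M := Nat.mul_le_mul_right _ h1
          have h3 : (x / M + 1) * M = (x / M) * M + M := by ring
          have h4 : min (f (x % M)) M ≤ M := min_le_right _ _
          omega
        · have h5 : x % M ≤ y % M := by
            have e1 := Nat.div_add_mod x M
            have e2 := Nat.div_add_mod y M
            rw [h1] at e1
            omega
          rw [h1]
          exact Nat.add_le_add_left (min_le_min_right _ (hF2 f hf h5)) _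
      · rw [hB, mem_image] at hφ
        obtain ⟨a, _, rfl⟩ := hφ
        exact monotone_const
      · rw [hC, mem_image] at hφ
        obtain ⟨a, _, rfl⟩ := hφ
        intro x y hxy
        simp only
        split_ifs with h1 h2
        · exact le_rfl
        · exact Nat.zero_le _
        · omega
        · exact le_rfl
    · intro x y x' y' hxy hy hxy' hy' hs
      have hmM : m ^ (L + 1) = m * M := by rw [hMdef]; ring
      rw [hmM] at hy hy'
      have hyd : y / M = y' / M := by
        have aux : ∀ u v : ℕ, v < m * M → (∀ a < m, u < a * M ↔ v < a * M) → v / M ≤ u / M := by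
          intro u v hv huv
          by_contra hcon
          push Not at hcon
          have h1 : v / M < m := by rwa [Nat.div_lt_iff_lt_mul hM]
          have h2 := (huv (v / M) h1).1 (by
            have h3 : u / M + 1 ≤ v / M := hcon
            have h4 := Nat.mul_le_mul_right M h3
            have e1 := Nat.div_add_mod u M
            have e2 := Nat.mod_lt u hM
            have e3 : (u / M + 1) * M = M * (u / M) + M := by ring
            omega)
          exact absurd (Nat.div_mul_le_self v M) (not_le.2 h2)
        have hB' : ∀ a < m, (y < a * M ↔ y' < a * M) := fun a ha =>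
          hs (fun _ => a * M) (by
            rw [mem_union, mem_union]
            exact Or.inr (Or.inl (mem_image.2 ⟨a, mem_range.2 ha, rfl⟩)))
        exact le_antisymm (aux y' y hy (fun a ha => (hB' a ha).symm)) (aux y y' hy' hB')
      have hxm : x < m * M := hxy.trans hy
      have hxm' : x' < m * M := hxy'.trans hy'
      have hxd : x / M = x' / M := by
        have hC' : ∀ a < m, (x < a * M ↔ x' < a * M) := by
          intro a ha
          have h1 := hs (fun x : ℕ => if x < a * M then 0 else m * M) (by
            rw [mem_union, mem_union]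
            exact Or.inr (Or.inr (mem_image.2 ⟨a, mem_range.2 ha, rfl⟩)))
          by_cases h2 : x < a * M
          · by_cases h3 : x' < a * M
            · exact ⟨fun _ => h3, fun _ => h2⟩
            · rw [if_pos h2, if_neg h3] at h1
              exact absurd (h1.2 hy') (Nat.not_lt_zero _)
          · by_cases h3 : x' < a * M
            · rw [if_neg h2, if_pos h3] at h1
              exact absurd (h1.1 hy) (Nat.not_lt_zero _)
            · exact ⟨fun h => absurd h h2, fun h => absurd h h3⟩
        have aux : ∀ u v : ℕ, v < m * M → (∀ a < m, u < a * M ↔ v < a * M) → v / M ≤ u / M := by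
          intro u v hv huv
          by_contra hcon
          push Not at hcon
          have h1 : v / M < m := by rwa [Nat.div_lt_iff_lt_mul hM]
          have h2 := (huv (v / M) h1).1 (by
            have h3 : u / M + 1 ≤ v / M := hcon
            have h4 := Nat.mul_le_mul_right M h3
            have e1 := Nat.div_add_mod u M
            have e2 := Nat.mod_lt u hM
            have e3 : (u / M + 1) * M = M * (u / M) + M := by ring
            omega)
          exact absurd (Nat.div_mul_le_self v M) (not_le.2 h2)
        exact le_antisymm (aux x' x hxm (fun a ha => (hC' a ha).symm)) (aux x x' hxm' hC')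
      unfold lexcol
      rw [← hMdef, ← hxd, ← hyd]
      by_cases he : x / M = y / M
      · rw [if_pos he, if_pos he]
        have e1 := Nat.div_add_mod x M
        have e2 := Nat.div_add_mod y M
        have e3 := Nat.div_add_mod x' M
        have e4 := Nat.div_add_mod y' M
        rw [← hxd] at e3
        rw [← hyd] at e4
        rw [he] at e1 e3
        refine hF3 _ _ _ _ (by omega) (Nat.mod_lt _ hM) (by omega) (Nat.mod_lt _ hM) ?_
        intro f hf
        have h1 := hs (lift f) (by
          rw [mem_union]
          exact Or.inl (mem_image_of_mem _ hf))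
        simp only [hlift] at h1
        rw [← hxd, he] at h1
        have c1 : M * (y / M) = (y / M) * M := mul_comm _ _
        have g1 : y < y / M * M + min (f (x % M)) M ↔ y % M < f (x % M) := by
          have := Nat.mod_lt y hM
          constructor
          · intro h
            have h2 : y % M < min (f (x % M)) M := by omega
            exact lt_of_lt_of_le h2 (min_le_left _ _)
          · intro h
            have h2 : y % M < min (f (x % M)) M := lt_min h this
            omega
        have g2 : y' < y / M * M + min (f (x' % M)) M ↔ y' % M < f (x' % M) := by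
          have := Nat.mod_lt y' hM
          constructor
          · intro h
            have h2 : y' % M < min (f (x' % M)) M := by omega
            exact lt_of_lt_of_le h2 (min_le_left _ _)
          · intro h
            have h2 : y' % M < min (f (x' % M)) M := lt_min h this
            omega
        rw [g1, g2] at h1
        exact h1
      · rw [if_neg he, if_neg he]

/-- The finite lower bound. -/
theorem lower_finite {h L : ℕ} (hh : 1 ≤ h) : ∃ G : SimpleGraph (Fin (2 ^ (h * L))),
    Curves G (2 ^ (h + 1) * L) ∧ NoMono G ((2 * h) ^ L + 1) := by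
  classical
  have h1 : 2 ^ h < Pool.Agent.H818R2.Ram.R (2 * h + 1) (2 * h + 1) := by
    have := Pool.Agent.H818R2.Ram.erdos_lower (k := 2 * h + 1) (by omega)
    have h2 : (2 ^ h) ^ 2 < (Pool.Agent.H818R2.Ram.R (2 * h + 1) (2 * h + 1)) ^ 2 := by
      refine lt_of_le_of_lt ?_ this
      rw [← pow_mul]
      exact Nat.pow_le_pow_right (by norm_num) (by omega)
    exact lt_of_pow_lt_pow_left₀ 2 (Nat.zero_le _) h2
  obtain ⟨G0, hr, hb⟩ := Pool.Agent.H818R2.Ram.exists_coloring h1
  have hG0 : NoMono G0 (2 * h + 1) := by
    constructor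
    · intro T hT
      exact hr ⟨T, subset_univ _, hT⟩
    · intro T hT
      exact hb ⟨T, subset_univ _, hT⟩
  have hbase := homog_lt hG0
  have hm : 1 ≤ 2 ^ h := Nat.one_le_two_pow
  have hh1 := lex_homog (base := col G0) (K := 2 * h) hm
    (fun S hS b hSb => Nat.lt_succ_iff.1 (hbase S hS b hSb)) L
  obtain ⟨F, hF1, hF2, hF3⟩ := lex_curves (col G0) hm L
  have hpow : (2 ^ h) ^ L = 2 ^ (h * L) := by rw [← pow_mul]
  rw [hpow] at hh1 hF3
  refine ⟨gr _ (lexcol (col G0) (2 ^ h) L), ?_, ?_⟩
  · refine ⟨F.image (fun f => fun x : Fin (2 ^ (h * L)) => f x), ?_, ?_, ?_⟩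
    · refine card_image_le.trans (hF1.trans (le_of_eq ?_))
      rw [pow_succ]
      ring
    · intro φ hφ
      rw [mem_image] at hφ
      obtain ⟨f, hf, rfl⟩ := hφ
      left
      intro x y hxy
      exact hF2 f hf hxy
    · intro x y x' y' hxy hxy' hs
      rw [gr_adj hxy, gr_adj hxy', hF3 x y x' y' hxy y.2 hxy' y'.2 ?_]
      intro f hf
      exact hs _ (mem_image_of_mem _ hf)
  · exact noMono_gr (fun S hS b hSb => Nat.lt_succ_of_le (hh1 S hS b hSb))

/-- distance colourings -/
theorem curves_distance {n t : ℕ} (G : SimpleGraph (Fin n)) (f : ℕ → Bool)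
    (hG : ∀ x y : Fin n, x < y → (G.Adj x y ↔ f ((y : ℕ) - x) = true))
    (hf : ((Finset.range n).filter (fun d => 1 ≤ d ∧ d + 1 < n ∧ f d ≠ f (d + 1))).card ≤ t) :
    Curves G t := by
  classical
  set D := (Finset.range n).filter (fun d => 1 ≤ d ∧ d + 1 < n ∧ f d ≠ f (d + 1)) with hD
  refine ⟨D.image (fun d => fun x : Fin n => (x : ℕ) + d + 1), card_image_le.trans hf, ?_, ?_⟩
  · intro φ hφ
    rw [mem_image] at hφ
    obtain ⟨d, _, rfl⟩ := hφ
    left
    intro x y hxy
    have : (x : ℕ) ≤ y := hxy
    simp only
    omega
  · intro x y x' y' hxy hxy' hs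
    have h0 : (x : ℕ) < y := hxy
    have h0' : (x' : ℕ) < y' := hxy'
    have hyn := y.2
    have hyn' := y'.2
    have hs' : ∀ d ∈ D, ((y : ℕ) - x ≤ d ↔ (y' : ℕ) - x' ≤ d) := by
      intro d hd
      have := hs _ (mem_image_of_mem _ hd)
      constructor
      · intro h
        have := this.1 (by omega)
        omega
      · intro h
        have := this.2 (by omega)
        omega
    have aux : ∀ u v : ℕ, 1 ≤ u → u ≤ v → v < n → (∀ d ∈ D, (u ≤ d ↔ v ≤ d)) → f u = f v := by
      intro u v hu huv hvn hd
      obtain ⟨e, rfl⟩ := Nat.exists_eq_add_of_le huv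
      induction e with
      | zero => rfl
      | succ e ih =>
        have h1 : f (u + e) = f (u + e + 1) := by
          by_contra hne
          have hmem : u + e ∈ D := by
            rw [hD, mem_filter, mem_range]
            exact ⟨by omega, by omega, by omega, hne⟩
          have := (hd _ hmem).1 (by omega)
          omega
        rw [show u + (e + 1) = u + e + 1 by ring, ← h1]
        refine ih (by omega) (by omega) ?_
        intro d hdD
        constructor
        · intro h
          have := (hd d hdD).1 h
          omega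
        · intro h
          omega
    rw [hG x y hxy, hG x' y' hxy']
    rcases le_total ((y : ℕ) - x) (y' - x') with h | h
    · rw [aux _ _ (by omega) h (by omega) hs']
    · rw [aux _ _ (by omega) h (by omega) (fun d hd => (hs' d hd).symm)]

end Pool.Agent.R51.Stair
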