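import Pool.Agent.R51.Stair.Asym

set_option autoImplicit false

open Finset Filter Topology

namespace Pool.Agent.R51.Stair

theorem log_log_ge_one {t : ℕ} (ht : 16 ≤ t) : 2.77 < Real.log t ∧ 1 ≤ Real.log (Real.log t) := by
  have htR : (16 : ℝ) ≤ t := by exact_mod_cast ht
  have h16 : Real.log 16 = 4 * Real.log 2 := by
    rw [show (16 : ℝ) = 2 ^ 4 by norm_num, Real.log_pow]
    norm_num
  have h1 : Real.log 16 ≤ Real.log t := Real.log_le_log (by norm_num) htR
  have h2 := Real.log_two_gt_d9
  have h3 : 2.77 < Real.log t := by linarith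
  refine ⟨h3, ?_⟩
  rw [Real.le_log_iff_exp_le (by linarith)]
  have := Real.exp_one_lt_d9
  linarith

theorem lt_four_pow {n k : ℕ} {G : SimpleGraph (Fin n)} (hG : NoMono G k) : n < 4 ^ k := by
  by_contra hcon
  push Not at hcon
  have h1 : (k + k).choose k ≤ (range n).card := by
    rw [card_range]
    refine le_trans ?_ hcon
    calc (k + k).choose k ≤ 2 ^ (k + k) := Nat.choose_le_two_pow _ _
      _ = 4 ^ k := by rw [← two_mul, pow_mul]; norm_num
  rcases ramsey_thm (col G) true (k + k) k k rfl _ h1 with ⟨T, hT, hT1, hT2⟩ | ⟨T, hT, hT1, hT2⟩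
  · have := homog_lt hG T hT _ hT2
    omega
  · have := homog_lt hG T hT _ hT2
    omega

theorem small_upper {n k t : ℕ} {G : SimpleGraph (Fin n)} (ht : 16 ≤ t) (hk2 : 2 ≤ k)
    (hc : Curves G t) (hG : NoMono G k) :
    Real.log n ≤ 27 * (Real.log t * Real.log k / Real.log (Real.log t)) := by
  obtain ⟨hu, hlu⟩ := log_log_ge_one ht
  set u := Real.log t with hudef
  set lu := Real.log u with hludef
  have hkR : (2 : ℝ) ≤ k := by exact_mod_cast hk2
  have hl2 := Real.log_two_gt_d9
  have hlk : Real.log 2 ≤ Real.log k := Real.log_le_log (by norm_num) hkR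
  have hlk0 : 0 < Real.log k := by linarith
  have h4 := log_four_lt
  have hlu0 : 0 < lu := by linarith
  rcases Nat.eq_zero_or_pos n with rfl | hn
  · rw [Nat.cast_zero, Real.log_zero]
    have : 0 ≤ u * Real.log k / lu := by positivity
    linarith
  have hnR : (0 : ℝ) < n := by exact_mod_cast hn
  rw [← mul_div_assoc, le_div_iff₀ hlu0]
  rcases le_or_gt (k : ℝ) u with hku | hku
  · have h1 : Real.log n ≤ k * Real.log 4 := by
      have : (n : ℝ) ≤ 4 ^ k := by exact_mod_cast (lt_four_pow hG).le
      have h5 := Real.log_le_log hnR this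
      rwa [Real.log_pow] at h5
    have h2 : k * lu ≤ 2.5 * (u * Real.log k) := by
      have h6 : Real.log (u / k) ≤ u / k - 1 := Real.log_le_sub_one_of_pos (by positivity)
      rw [Real.log_div (by linarith) (by linarith)] at h6
      have h7 : k * (lu - Real.log k) ≤ k * (u / k - 1) :=
        mul_le_mul_of_nonneg_left h6 (by linarith)
      have h8 : k * (u / k - 1) = u - k := by
        field_simp
      rw [h8] at h7
      have h9 : k * Real.log k ≤ u * Real.log k := mul_le_mul_of_nonneg_right hku hlk0.le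
      have h10 : u * 0.69 ≤ u * Real.log k := mul_le_mul_of_nonneg_left (by linarith) (by linarith)
      nlinarith
    have h3 : Real.log n * lu ≤ (k * Real.log 4) * lu := mul_le_mul_of_nonneg_right h1 hlu0.le
    have h5 : (k * Real.log 4) * lu = Real.log 4 * (k * lu) := by ring
    have h6 : Real.log 4 * (k * lu) ≤ 1.39 * (k * lu) :=
      mul_le_mul_of_nonneg_right h4.le (by positivity)
    have h7 : 0 < u * Real.log k := by positivity
    nlinarith
  · set p : ℕ := ⌊u⌋₊ with hp
    have hpu : (p : ℝ) ≤ u := Nat.floor_le (by linarith)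
    have hup : u < p + 1 := Nat.lt_floor_add_one u
    have hp2 : 2 ≤ p := Nat.le_floor (by push_cast; linarith)
    have hp2R : (2 : ℝ) ≤ p := by exact_mod_cast hp2
    have hlp : Real.log 2 ≤ Real.log p := Real.log_le_log (by norm_num) hp2R
    have hlp0 : 0 < Real.log p := by linarith
    have hlup : lu ≤ 2 * Real.log p := by
      have : u ≤ (p : ℝ) ^ 2 := by nlinarith
      have h := Real.log_le_log (by linarith) this
      rw [Real.log_pow] at h
      exact_mod_cast h
    have hlpk : Real.log p ≤ Real.log k := Real.log_le_log (by linarith) (by linarith)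
    set J : ℕ := ⌊2 * Real.log k / Real.log p⌋₊ + 1 with hJ
    have hJ1 : 2 * Real.log k / Real.log p < J := by
      rw [hJ]
      push_cast
      exact Nat.lt_floor_add_one _
    have hJ2 : (J : ℝ) ≤ 3 * Real.log k / Real.log p := by
      have h1 : (⌊2 * Real.log k / Real.log p⌋₊ : ℝ) ≤ 2 * Real.log k / Real.log p :=
        Nat.floor_le (by positivity)
      have h2 : 1 ≤ Real.log k / Real.log p := by
        rw [le_div_iff₀ hlp0]
        linarith
      rw [hJ]
      push_cast
      have h3 : 3 * Real.log k / Real.log p = 2 * Real.log k / Real.log p + Real.log k / Real.log p := by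
        ring
      rw [h3]
      linarith
    have hnW : n < ((16 * t + 2) * 4 ^ p) ^ J := by
      by_contra hcon
      push Not at hcon
      have h1 := rec_graph hc hG (by omega : 1 ≤ p) hcon
      have h2 : ((p ^ J : ℕ) : ℝ) ≤ ((k - 1 : ℕ) : ℝ) ^ 2 := by exact_mod_cast h1
      have h3 : ((k - 1 : ℕ) : ℝ) ≤ k := by exact_mod_cast Nat.sub_le k 1
      have h4 : ((p ^ J : ℕ) : ℝ) ≤ (k : ℝ) ^ 2 :=
        h2.trans (pow_le_pow_left₀ (Nat.cast_nonneg _) h3 2)
      push_cast at h4
      have h5 := Real.log_le_log (by positivity) h4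
      rw [Real.log_pow, Real.log_pow] at h5
      rw [div_lt_iff₀ hlp0] at hJ1
      push_cast at h5
      linarith
    have hlogn : Real.log n ≤ J * (Real.log (16 * t + 2) + p * Real.log 4) := by
      have h1 : (n : ℝ) ≤ ((16 * t + 2) * 4 ^ p) ^ J := by exact_mod_cast hnW.le
      have h2 := Real.log_le_log hnR h1
      rw [Real.log_pow, Real.log_mul (by positivity) (by positivity), Real.log_pow] at h2
      exact h2
    have htR : (16 : ℝ) ≤ t := by exact_mod_cast ht
    have hW : Real.log (16 * t + 2) + p * Real.log 4 ≤ 4.39 * u := by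
      have h1 : (16 * t + 2 : ℝ) ≤ (t : ℝ) ^ 3 := by nlinarith [sq_nonneg ((t : ℝ) - 16)]
      have h2 := Real.log_le_log (by positivity) h1
      rw [Real.log_pow] at h2
      have h3 : (p : ℝ) * Real.log 4 ≤ u * 1.39 := by
        apply mul_le_mul hpu h4.le
        · exact (Real.log_pos (by norm_num)).le
        · linarith
      push_cast at h2
      linarith
    have h1 : Real.log n ≤ (3 * Real.log k / Real.log p) * (4.39 * u) := by
      refine hlogn.trans ?_
      apply mul_le_mul hJ2 hW
      · have : 0 < Real.log (16 * t + 2) := Real.log_pos (by linarith)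
        have : 0 < Real.log 4 := Real.log_pos (by norm_num)
        positivity
      · positivity
    have h2 : Real.log n * lu ≤ (3 * Real.log k / Real.log p) * (4.39 * u) * (2 * Real.log p) := by
      apply mul_le_mul h1 hlup hlu0.le
      positivity
    have h3 : (3 * Real.log k / Real.log p) * (4.39 * u) * (2 * Real.log p) =
        26.34 * (u * Real.log k) := by
      field_simp
      ring
    rw [h3] at h2
    have h7 : 0 < u * Real.log k := by positivity
    linarith

theorem Curves.mono {n s t : ℕ} {G : SimpleGraph (Fin n)} (h : Curves G s) (hst : s ≤ t) :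
    Curves G t := by
  obtain ⟨F, hF, h1, h2⟩ := h
  exact ⟨F, hF.trans hst, h1, h2⟩

theorem NoMono.mono {n k l : ℕ} {G : SimpleGraph (Fin n)} (h : NoMono G k) (hkl : k ≤ l) :
    NoMono G l := ⟨h.1.mono hkl, h.2.mono hkl⟩

theorem small_lower {k t : ℕ} (ht : 16 ≤ t) (h1 : (2 * Real.log k) ^ 2 ≤ t) (h2 : t ≤ 2 ^ k) :
    ∃ (n : ℕ) (G : SimpleGraph (Fin n)), Curves G t ∧ NoMono G k ∧
      1 / 80 * (Real.log t * Real.log k / Real.log (Real.log t)) ≤ Real.log n := by
  obtain ⟨hu, hlu⟩ := log_log_ge_one ht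
  set T := Nat.log 2 t with hT
  have hT4 : 4 ≤ T := by
    rw [hT]
    exact (Nat.le_log_iff_pow_le (by norm_num) (by omega)).2 (by norm_num; exact ht)
  have hTk : T ≤ k := by
    have : 2 ^ T ≤ 2 ^ k := (Nat.pow_log_le_self 2 (by omega)).trans h2
    exact (Nat.pow_le_pow_iff_right (by norm_num)).1 this
  have hTt : 2 ^ T ≤ t := Nat.pow_log_le_self 2 (by omega)
  have htT : t < 2 ^ (T + 1) := Nat.lt_pow_succ_log_self (by norm_num) t
  obtain ⟨h, hh⟩ : ∃ h, h = T / 2 - 1 := ⟨_, rfl⟩
  have hh1 : 1 ≤ h := by omega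
  set L := Nat.log (2 * h) (k - 1) with hL
  have hL1 : 1 ≤ L := Nat.log_pos (by omega) (by omega)
  have hLle : (2 * h) ^ L ≤ k - 1 := Nat.pow_log_le_self _ (by omega)
  have hLlt : k - 1 < (2 * h) ^ (L + 1) := Nat.lt_pow_succ_log_self (by omega) _
  have hk4 : 4 ≤ k := by omega
  have hkR : (4 : ℝ) ≤ k := by exact_mod_cast hk4
  have hl2 := Real.log_two_gt_d9
  have hl2' := Real.log_two_lt_d9
  have hlk0 : 0 < Real.log k := Real.log_pos (by linarith)
  have htR : (16 : ℝ) ≤ t := by exact_mod_cast ht
  obtain ⟨G, hG1, hG2⟩ := lower_finite (h := h) (L := L) hh1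
  refine ⟨_, G, hG1.mono ?_, hG2.mono (by omega), ?_⟩
  · -- 2 ^ (h + 1) * L ≤ t
    have e1 : h + 1 = T / 2 := by omega
    rw [e1]
    have e2 : ((2 : ℝ) ^ (T / 2)) ^ 2 ≤ t := by
      rw [← pow_mul]
      have : (2 : ℝ) ^ (T / 2 * 2) ≤ 2 ^ T := pow_le_pow_right₀ (by norm_num) (by omega)
      exact this.trans (by exact_mod_cast hTt)
    have e3 : (2 : ℝ) ^ (T / 2) ≤ Real.sqrt t := Real.le_sqrt_of_sq_le e2
    have e4 : (L : ℝ) * Real.log 2 ≤ Real.log k := by
      have : 2 ^ L ≤ k := by
        calc 2 ^ L ≤ (2 * h) ^ L := Nat.pow_le_pow_left (by omega) L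
          _ ≤ k - 1 := hLle
          _ ≤ k := Nat.sub_le _ _
      have h3 : ((2 : ℝ)) ^ L ≤ k := by exact_mod_cast this
      have h4 := Real.log_le_log (by positivity) h3
      rwa [Real.log_pow] at h4
    have e5 : 2 * Real.log k ≤ Real.sqrt t := Real.le_sqrt_of_sq_le h1
    have e6 : (L : ℝ) ≤ Real.sqrt t := by
      have : (L : ℝ) * 0.69 ≤ (L : ℝ) * Real.log 2 :=
        mul_le_mul_of_nonneg_left (by linarith) (Nat.cast_nonneg _)
      have hs : 0 ≤ Real.sqrt t := Real.sqrt_nonneg _
      nlinarith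
    have e7 : (2 : ℝ) ^ (T / 2) * L ≤ t := by
      calc (2 : ℝ) ^ (T / 2) * L ≤ Real.sqrt t * Real.sqrt t :=
            mul_le_mul e3 e6 (Nat.cast_nonneg _) (Real.sqrt_nonneg _)
        _ = t := Real.mul_self_sqrt (by linarith)
    exact_mod_cast e7
  · -- the logarithm
    have hlogn : Real.log ((2 ^ (h * L) : ℕ) : ℝ) = h * L * Real.log 2 := by
      push_cast
      rw [Real.log_pow]
      push_cast
      ring
    rw [hlogn]
    set u := Real.log t with hudef
    set lu := Real.log u with hludef
    have hlu0 : 0 < lu := by linarith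
    -- h log 2 ≥ u / 10
    have f1 : u / 10 ≤ h * Real.log 2 := by
      have g1 : (t : ℝ) ≤ 2 ^ (T + 1) := by exact_mod_cast htT.le
      have g2 := Real.log_le_log (by linarith) g1
      rw [Real.log_pow] at g2
      have g3 : T + 1 ≤ 10 * h := by omega
      have g4 : ((T + 1 : ℕ) : ℝ) ≤ 10 * h := by exact_mod_cast g3
      have g5 : ((T + 1 : ℕ) : ℝ) * Real.log 2 ≤ 10 * h * Real.log 2 :=
        mul_le_mul_of_nonneg_right g4 (by linarith)
      linarith
    -- log (2 h) ≤ 2 lu
    have hhR : (1 : ℝ) ≤ h := by exact_mod_cast hh1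
    have f2 : Real.log (2 * h) ≤ 2 * lu := by
      have g1 : (2 ^ T : ℝ) ≤ t := by exact_mod_cast hTt
      have g2 := Real.log_le_log (by positivity) g1
      rw [Real.log_pow] at g2
      have g3 : (2 * h : ℝ) ≤ T := by
        have : 2 * h ≤ T := by omega
        exact_mod_cast this
      have g4 : (T : ℝ) * 0.69 ≤ T * Real.log 2 :=
        mul_le_mul_of_nonneg_left (by linarith) (Nat.cast_nonneg _)
      have g5 : (2 * h : ℝ) ≤ u ^ 2 := by nlinarith
      have g6 := Real.log_le_log (by positivity) g5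
      rw [Real.log_pow] at g6
      exact_mod_cast g6
    have f2' : 0 < Real.log (2 * h) := Real.log_pos (by linarith)
    -- L log (2 h) ≥ log k / 4
    have f3 : Real.log k ≤ 4 * (L * Real.log (2 * h)) := by
      have g1 : ((k - 1 : ℕ) : ℝ) ≤ ((2 * h : ℕ) : ℝ) ^ (L + 1) := by exact_mod_cast hLlt.le
      have gk : ((k - 1 : ℕ) : ℝ) = k - 1 := by
        rw [Nat.cast_sub (by omega)]
        norm_num
      rw [gk] at g1
      have g2 := Real.log_le_log (by linarith) g1
      rw [Real.log_pow] at g2
      have g3 : Real.log k ≤ 2 * Real.log (k - 1) := by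
        have : (k : ℝ) ≤ ((k : ℝ) - 1) ^ 2 := by nlinarith
        have g := Real.log_le_log (by linarith) this
        rw [Real.log_pow] at g
        exact_mod_cast g
      have g4 : ((L + 1 : ℕ) : ℝ) ≤ 2 * L := by
        have : L + 1 ≤ 2 * L := by omega
        exact_mod_cast this
      have g5 : ((L + 1 : ℕ) : ℝ) * Real.log ((2 * h : ℕ) : ℝ) ≤ 2 * L * Real.log (2 * h) := by
        push_cast at g4 ⊢
        exact mul_le_mul_of_nonneg_right g4 f2'.le
      linarith
    have f4 : Real.log k ≤ 8 * (L * lu) := by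
      have : (L : ℝ) * Real.log (2 * h) ≤ L * (2 * lu) :=
        mul_le_mul_of_nonneg_left f2 (Nat.cast_nonneg _)
      linarith
    have f5 : u * Real.log k / lu ≤ 80 * (h * L * Real.log 2) := by
      rw [div_le_iff₀ hlu0]
      have g1 : u ≤ 10 * (h * Real.log 2) := by linarith
      calc u * Real.log k ≤ (10 * (h * Real.log 2)) * (8 * (L * lu)) := by
            apply mul_le_mul g1 f4 hlk0.le
            have : 0 < Real.log 2 := by linarith
            positivity
        _ = 80 * (h * L * Real.log 2) * lu := by ring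
    linarith

end Pool.Agent.R51.Stair
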